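import Pool.Agent.V7H64.BR.Comb
set_option autoImplicit false

/-!
Charts at the vertices of an arrangement of hypersurfaces.
-/

namespace Pool.Agent.V7H64.BR

open Filter Topology

open Pool.Agent.TH826.GA (cm al al_T)

open Pool.Agent.TH577.UA (hi kap top le_top al_top top_T stp seg stp_add mmon contDiff_mmon
  mmon_zero_ne mmon_zero_eq)

section deriv

variable {K : Type*} [Field K] {n : ℕ} (σ : K →+* ℂ)

/-- the differential of a polynomial -/
noncomputable def dpoly (p : MvPolynomial (Fin n) K) (x : Fin n → ℂ) : (Fin n → ℂ) →L[ℂ] ℂ :=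
  ∑ j, MvPolynomial.eval₂ σ x (MvPolynomial.pderiv j p) •
    ContinuousLinearMap.proj (R := ℂ) (φ := fun _ : Fin n => ℂ) j

theorem dpoly_apply (p : MvPolynomial (Fin n) K) (x v : Fin n → ℂ) :
    dpoly σ p x v = ∑ j, MvPolynomial.eval₂ σ x (MvPolynomial.pderiv j p) * v j := by
  unfold dpoly
  rw [ContinuousLinearMap.sum_apply]
  rfl

theorem hasFDerivAt_poly (p : MvPolynomial (Fin n) K) (x : Fin n → ℂ) :
    HasFDerivAt (fun x => MvPolynomial.eval₂ σ x p) (dpoly σ p x) x := by
  classical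
  induction p using MvPolynomial.induction_on with
  | C c =>
    simp only [MvPolynomial.eval₂_C]
    refine (hasFDerivAt_const (σ c) x).congr_fderiv (ContinuousLinearMap.ext fun v => ?_)
    rw [dpoly_apply]
    simp
  | add p q hp hq =>
    simp only [MvPolynomial.eval₂_add]
    refine (hp.add hq).congr_fderiv (ContinuousLinearMap.ext fun v => ?_)
    rw [ContinuousLinearMap.add_apply, dpoly_apply, dpoly_apply, dpoly_apply]
    simp only [map_add, MvPolynomial.eval₂_add, add_mul, Finset.sum_add_distrib]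
  | mul_X p k hp =>
    simp only [MvPolynomial.eval₂_mul, MvPolynomial.eval₂_X]
    have hk : HasFDerivAt (fun x : Fin n → ℂ => x k)
        (ContinuousLinearMap.proj (R := ℂ) (φ := fun _ : Fin n => ℂ) k) x :=
      (ContinuousLinearMap.proj (R := ℂ) (φ := fun _ : Fin n => ℂ) k).hasFDerivAt
    refine (hp.mul hk).congr_fderiv (ContinuousLinearMap.ext fun v => ?_)
    rw [ContinuousLinearMap.add_apply, ContinuousLinearMap.smul_apply,
      ContinuousLinearMap.smul_apply, dpoly_apply, dpoly_apply]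
    have h1 : ∀ j, MvPolynomial.eval₂ σ x (MvPolynomial.pderiv j (p * MvPolynomial.X k)) * v j =
        x k * (MvPolynomial.eval₂ σ x (MvPolynomial.pderiv j p) * v j) +
          MvPolynomial.eval₂ σ x p * (if k = j then v j else 0) := by
      intro j
      rw [Derivation.leibniz, MvPolynomial.eval₂_add, smul_eq_mul, smul_eq_mul,
        MvPolynomial.eval₂_mul, MvPolynomial.eval₂_mul, MvPolynomial.eval₂_X]
      by_cases h : k = j
      · rw [if_pos h, h, MvPolynomial.pderiv_X_self, MvPolynomial.eval₂_one]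
        ring
      · rw [if_neg h, MvPolynomial.pderiv_X_of_ne (Ne.symm (Ne.symm h)), MvPolynomial.eval₂_zero]
        ring
    simp only [h1, Finset.sum_add_distrib, ← Finset.mul_sum]
    rw [Finset.sum_ite_eq Finset.univ k, if_pos (Finset.mem_univ k)]
    simp only [smul_eq_mul, ContinuousLinearMap.proj_apply]
    ring

theorem contDiff_poly {k : WithTop ℕ∞} (p : MvPolynomial (Fin n) K) :
    ContDiff ℂ k fun x : Fin n → ℂ => MvPolynomial.eval₂ σ x p := by
  induction p using MvPolynomial.induction_on with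
  | C c => simpa using contDiff_const
  | add p q hp hq => simpa using hp.add hq
  | mul_X p k hp => simpa using hp.mul (contDiff_apply ℂ ℂ k)

/-- coordinates at a transversal common zero -/
theorem exists_coord (f : Fin n → MvPolynomial (Fin n) K) (p : Fin n → ℂ)
    (hp : ∀ i, MvPolynomial.eval₂ σ p (f i) = 0)
    (hJ : (Matrix.of fun i j : Fin n =>
      MvPolynomial.eval₂ σ p (MvPolynomial.pderiv j (f i))).det ≠ 0) :
    ∃ X : (Fin n → ℂ) → Fin n → ℂ, ContDiffAt ℂ 2 X 0 ∧ X 0 = p ∧
      ∀ᶠ u in 𝓝 (0 : Fin n → ℂ), ∀ i, MvPolynomial.eval₂ σ (X u) (f i) = u i := by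
  set Φ : (Fin n → ℂ) → Fin n → ℂ := fun x i => MvPolynomial.eval₂ σ x (f i) with hΦ
  have hΦc : ContDiffAt ℂ 2 Φ p := (contDiff_pi.2 fun i => contDiff_poly σ (f i)).contDiffAt
  have hΦ0 : Φ p = 0 := funext hp
  set J : Matrix (Fin n) (Fin n) ℂ := Matrix.of fun i j : Fin n =>
    MvPolynomial.eval₂ σ p (MvPolynomial.pderiv j (f i)) with hJdef
  let e0 : (Fin n → ℂ) ≃ₗ[ℂ] (Fin n → ℂ) :=
    Matrix.toLinearEquiv' J (J.invertibleOfIsUnitDet (isUnit_iff_ne_zero.2 hJ))
  let e : (Fin n → ℂ) ≃L[ℂ] (Fin n → ℂ) := e0.toContinuousLinearEquiv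
  have hΦd : HasFDerivAt Φ (e : (Fin n → ℂ) →L[ℂ] (Fin n → ℂ)) p := by
    rw [hasFDerivAt_pi']
    intro i
    refine (hasFDerivAt_poly σ (f i) p).congr_fderiv (ContinuousLinearMap.ext fun v => ?_)
    rw [dpoly_apply]
    show _ = (J.mulVec v) i
    rfl
  have hn : (2 : WithTop ℕ∞) ≠ 0 := by norm_num
  set Ψ := hΦc.localInverse hΦd hn with hΨ
  have hΨc : ContDiffAt ℂ 2 Ψ 0 := by
    have := hΦc.to_localInverse hΦd hn
    rwa [hΦ0] at this
  have hΨ0 : Ψ 0 = p := by
    have := hΦc.localInverse_apply_image hΦd hn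
    rwa [hΦ0] at this
  have hright : ∀ᶠ u in 𝓝 (0 : Fin n → ℂ), Φ (Ψ u) = u := by
    have := (hΦc.hasStrictFDerivAt' hΦd hn).eventually_right_inverse
    rwa [hΦ0] at this
  refine ⟨Ψ, hΨc, hΨ0, ?_⟩
  filter_upwards [hright] with u hu i
  exact congrFun hu i

end deriv

section chart

variable {K : Type*} [Field K] {d m : ℕ}

/-- a chart, in which the `F_e` are products of monomials and of functions without zeros -/
structure Chart (F : Arr K d m) (σ : K →+* ℂ) (μ : Fin (m + 1) → Fin (d + 1) → ℕ) where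
  /-- the coordinates -/
  x : (Fin d → ℂ) × ℂ → Fin (d + 1) → ℂ
  /-- the functions without zeros -/
  h : Fin (m + 1) → (Fin d → ℂ) × ℂ → ℂ
  x_smooth : ContDiffAt ℂ 2 x 0
  h_smooth : ∀ e, ContDiffAt ℂ 2 (h e) 0
  h_ne : ∀ e, h e 0 ≠ 0
  fac : ∀ᶠ y in 𝓝 (0 : (Fin d → ℂ) × ℂ), ∀ e,
    MvPolynomial.eval₂ σ (x y) (F.form e) = mmon (μ e) y * h e y
  g_ne : MvPolynomial.eval₂ σ (x 0) F.g ≠ 0

variable {F : Arr K d m} {σ : K →+* ℂ}

/-- the chart at a vertex -/
theorem exists_chart (hne : ∀ e, F.form e ≠ 0) {T : Fin (d + 1) → Fin (m + 1)}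
    {p : Fin (d + 1) → ℂ} (hp : F.Vertex σ T p) : Nonempty (Chart F σ (mu F T)) := by
  classical
  obtain ⟨X, hXc, hX0, hXu⟩ := exists_coord σ (fun i => F.form (T i)) p hp.zero hp.jac
  set U : (Fin d → ℂ) × ℂ → Fin (d + 1) → ℂ := fun y i => mmon (stp i) y with hU
  have hUc : ContDiff ℂ 2 U := contDiff_pi.2 fun i => contDiff_mmon _
  have hU0 : U 0 = 0 := by
    funext i
    exact mmon_zero_ne ⟨i, by unfold stp; rw [if_pos le_rfl]; exact one_ne_zero⟩
  have hUt : Tendsto U (𝓝 0) (𝓝 0) := by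
    have h2 := hUc.continuous.continuousAt (x := (0 : (Fin d → ℂ) × ℂ))
    unfold ContinuousAt at h2
    rwa [hU0] at h2
  have hxc : ContDiffAt ℂ 2 (fun y => X (U y)) 0 := by
    refine ContDiffAt.comp (g := X) (0 : (Fin d → ℂ) × ℂ) ?_ hUc.contDiffAt
    rw [hU0]
    exact hXc
  have hx0 : X (U 0) = p := by rw [hU0, hX0]
  have hxu : ∀ᶠ y in 𝓝 (0 : (Fin d → ℂ) × ℂ), ∀ i,
      MvPolynomial.eval₂ σ (X (U y)) (F.form (T i)) = mmon (stp i) y := hUt.eventually hXu
  refine ⟨{
    x := fun y => X (U y)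
    h := fun e y => if F.Thr T e then ∑ l, σ (al F.c T e l) * mmon (seg l (top F.c T e)) y else
      MvPolynomial.eval₂ σ (X (U y)) (F.form e)
    x_smooth := hxc
    h_smooth := fun e => ?_
    h_ne := fun e => ?_
    fac := ?_
    g_ne := by rw [hx0]; exact hp.g_ne }⟩
  · by_cases h : F.Thr T e
    · simp only [if_pos h]
      exact (ContDiff.sum fun l _ => contDiff_const.mul (contDiff_mmon _)).contDiffAt
    · simp only [if_neg h]
      exact (contDiff_poly σ (F.form e)).contDiffAt.comp (0 : (Fin d → ℂ) × ℂ) hxc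
  · by_cases h : F.Thr T e
    · rw [if_pos h, Finset.sum_eq_single (top F.c T e)]
      · rw [mmon_zero_eq, mul_one]
        · exact (map_ne_zero σ).2 (al_top (exists_al_of_thr hne h))
        · intro j
          unfold seg
          rw [if_neg fun h => absurd h.2 (not_lt.2 h.1)]
      · intro l _ hl
        by_cases hl0 : al F.c T e l = 0
        · rw [hl0, map_zero, zero_mul]
        · have h1 : l < top F.c T e := lt_of_le_of_ne (le_top hl0) hl
          rw [mmon_zero_ne ⟨l, by unfold seg; rw [if_pos ⟨le_rfl, h1⟩]; exact one_ne_zero⟩,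
            mul_zero]
      · intro h
        exact absurd (Finset.mem_univ _) h
    · rw [if_neg h, hx0]
      exact fun h0 => h (hp.thr e h0)
  · filter_upwards [hxu] with y hy e
    by_cases h : F.Thr T e
    · have hmu : mu F T e = stp (top F.c T e) := by
        unfold mu
        rw [if_pos h]
      have h1 : F.form e = ∑ l, MvPolynomial.C (al F.c T e l) * F.form (T l) := h
      rw [if_pos h, hmu, Finset.mul_sum]
      conv_lhs => rw [h1]
      rw [MvPolynomial.eval₂_sum]
      refine Finset.sum_congr rfl fun l _ => ?_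
      rw [MvPolynomial.eval₂_mul, MvPolynomial.eval₂_C, hy l]
      by_cases hl : al F.c T e l = 0
      · rw [hl, map_zero, zero_mul, zero_mul, mul_zero]
      · rw [stp_add (le_top hl)]
        ring
    · have hmu : mu F T e = 0 := by
        unfold mu
        rw [if_neg h]
      rw [if_neg h, hmu, mmon_zero_eq (μ := 0) (fun j => rfl), one_mul]

end chart

end Pool.Agent.V7H64.BR
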