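import Pool.Agent.V7H64.BR.Def
import Pool.Agent.N65.TL.Fam
set_option autoImplicit false

/-!
Valuations and weighted homogeneous polynomials without common zeros.
-/

namespace Pool.Agent.V7H64.BR

open scoped WithZero

open Pool.Agent.TH826.MK

open Pool.Agent.TH826.GA (cm al al_T)

open Pool.Agent.TH577.UA (hi kap hi_spec le_hi_of_al kap_eq kap_ne)

open Pool.Agent.N65.TU (Del Del_ne Del_int Del_inv Del_al Del_kap_inv Del_div det_int val_le_exp
  exists_n all_one mem_unitPart_of_block')

section poly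

variable {K : Type*} [Field K] {d : ℕ} {L : Type*} [Field L]
  (H : MvPolynomial (Fin (d + 1)) K →+* L) (v : Valuation L ℤᵐ⁰) {a : Fin (d + 1) → ℕ}

theorem hom_eq_sum (p : MvPolynomial (Fin (d + 1)) K) :
    H p = ∑ k ∈ p.support, H (MvPolynomial.C (p.coeff k)) *
      ∏ j, H (MvPolynomial.X j) ^ k j := by
  have h1 : H p = MvPolynomial.eval₂ (H.comp MvPolynomial.C) (fun j => H (MvPolynomial.X j)) p := by
    have h2 : H = MvPolynomial.eval₂Hom (H.comp MvPolynomial.C)
        (fun j => H (MvPolynomial.X j)) := by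
      refine MvPolynomial.ringHom_ext (fun x => ?_) fun j => ?_
      · simp only [MvPolynomial.coe_eval₂Hom, MvPolynomial.eval₂_C]
        rfl
      · simp only [MvPolynomial.coe_eval₂Hom, MvPolynomial.eval₂_X]
    exact congrArg (fun F : MvPolynomial (Fin (d + 1)) K →+* L => F p) h2
  rw [h1, MvPolynomial.eval₂_eq']
  rfl

theorem val_mono_le {ω : ℤ} (hx : ∀ j, v (H (MvPolynomial.X j)) ≤ WithZero.exp (ω * a j))
    (i : Fin (d + 1) →₀ ℕ) :
    v (∏ j, H (MvPolynomial.X j) ^ i j) ≤ WithZero.exp (ω * Finsupp.weight a i) := by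
  have h1 : ((Finsupp.weight a i : ℕ) : ℤ) = ∑ j, (i j : ℤ) * a j := by
    rw [Finsupp.weight_apply, Finsupp.sum_fintype _ _ fun _ => by simp]
    push_cast
    simp
  rw [h1, map_prod, Finset.mul_sum]
  have h3 : ∀ t : Finset (Fin (d + 1)), ∏ j ∈ t, v (H (MvPolynomial.X j) ^ i j) ≤
      WithZero.exp (∑ j ∈ t, ω * ((i j : ℤ) * a j)) := by
    intro t
    induction t using Finset.induction_on with
    | empty => simp
    | insert j t hj ih =>
      rw [Finset.prod_insert hj, Finset.sum_insert hj, WithZero.exp_add]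
      refine mul_le_mul' ?_ ih
      rw [map_pow, mul_left_comm, ← smul_eq_mul (a := ((i j : ℕ) : ℤ)), WithZero.exp_zsmul,
        zpow_natCast]
      exact pow_le_pow_left' (hx j) _
  exact h3 Finset.univ

/-- a polynomial with integral coefficients and monomials of weight at most `W` -/
theorem val_wt_le {ω : ℤ} (hω : 0 ≤ ω)
    (hx : ∀ j, v (H (MvPolynomial.X j)) ≤ WithZero.exp (ω * a j))
    {p : MvPolynomial (Fin (d + 1)) K} (hp : ∀ i, IsIntegral ℤ (p.coeff i)) {W : ℤ}
    (hW : ∀ i ∈ p.support, ((Finsupp.weight a i : ℕ) : ℤ) ≤ W) :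
    v (H p) ≤ WithZero.exp (ω * W) := by
  rw [hom_eq_sum H p]
  refine Valuation.map_sum_le v fun i hi => ?_
  rw [map_mul]
  have h1 : v (H (MvPolynomial.C (p.coeff i))) ≤ 1 :=
    val_le_one_of_integral v (map_isIntegral_int (H.comp MvPolynomial.C) (hp i))
  calc v (H (MvPolynomial.C (p.coeff i))) * v (∏ j, H (MvPolynomial.X j) ^ i j)
      ≤ 1 * WithZero.exp (ω * Finsupp.weight a i) := mul_le_mul' h1 (val_mono_le H v hx i)
    _ ≤ WithZero.exp (ω * W) := by
      rw [one_mul, WithZero.exp_le_exp]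
      exact mul_le_mul_of_nonneg_left (hW i hi) hω

/-- the scale of a point -/
theorem exists_scale (x : Fin (d + 1) → L) {τ : ℤ} :
    (∀ j, v (x j) ^ (∏ l, a l) ≤ WithZero.exp (τ * a j)) ∨
    ∃ ω : ℤ, τ < ω ∧ (∀ j, v (x j) ^ (∏ l, a l) ≤ WithZero.exp (ω * a j)) ∧
      ∃ j0, v (x j0) ^ (∏ l, a l) = WithZero.exp (ω * a j0) := by
  classical
  set E : Fin (d + 1) → ℕ := fun j => ∏ l ∈ Finset.univ.erase j, a l with hE
  have hA : ∀ j, ∏ l, a l = E j * a j := fun j => by
    rw [hE, mul_comm]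
    exact (Finset.mul_prod_erase Finset.univ a (Finset.mem_univ j)).symm
  obtain ⟨j0, -, hj0⟩ := Finset.exists_max_image Finset.univ (fun j => v (x j) ^ E j)
    ⟨0, Finset.mem_univ _⟩
  have hexp : ∀ (t : ℤ) (n : ℕ), WithZero.exp t ^ n = WithZero.exp (t * n) := fun t n => by
    rw [mul_comm, ← smul_eq_mul, WithZero.exp_zsmul, zpow_natCast]
  by_cases h : v (x j0) ^ E j0 ≤ WithZero.exp τ
  · left
    intro j
    rw [hA j, pow_mul, ← hexp]
    exact pow_le_pow_left' ((hj0 j (Finset.mem_univ j)).trans h) _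
  · right
    push Not at h
    have h0 : v (x j0) ^ E j0 ≠ 0 := (WithZero.exp_pos.trans h).ne'
    set ω : ℤ := WithZero.log (v (x j0) ^ E j0) with hω
    have hωe : v (x j0) ^ E j0 = WithZero.exp ω := (WithZero.exp_log h0).symm
    refine ⟨ω, ?_, fun j => ?_, j0, ?_⟩
    · rw [hωe, WithZero.exp_lt_exp] at h
      exact h
    · rw [hA j, pow_mul, ← hexp, ← hωe]
      exact pow_le_pow_left' (hj0 j (Finset.mem_univ j)) _
    · rw [hA j0, pow_mul, hωe, hexp]

/-- the power of a valuation -/
noncomputable def vpow (v : Valuation L ℤᵐ⁰) {A : ℕ} (hA : A ≠ 0) : Valuation L ℤᵐ⁰ :=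
  v.map (powMonoidWithZeroHom hA) fun _ _ h => pow_le_pow_left' h A

theorem vpow_apply {A : ℕ} (hA : A ≠ 0) (x : L) : vpow v hA x = v x ^ A := rfl

end poly

section res

variable {K : Type*} [Field K] {d m : ℕ} {a : Fin (d + 1) → ℕ}

/-- the components of a product with a weighted homogeneous polynomial -/
theorem comp_mul (t M : ℕ) (b : MvPolynomial (Fin (d + 1)) K) {P : MvPolynomial (Fin (d + 1)) K}
    (hP : P.IsWeightedHomogeneous a M) :
    MvPolynomial.weightedHomogeneousComponent a t (b * P) =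
      (if M ≤ t then MvPolynomial.weightedHomogeneousComponent a (t - M) b else 0) * P := by
  classical
  ext i
  rw [MvPolynomial.coeff_weightedHomogeneousComponent, MvPolynomial.coeff_mul,
    MvPolynomial.coeff_mul]
  have key : ∀ x ∈ Finset.HasAntidiagonal.antidiagonal i,
      (if Finsupp.weight a i = t then MvPolynomial.coeff x.1 b * MvPolynomial.coeff x.2 P else 0) =
      MvPolynomial.coeff x.1 (if M ≤ t then
        MvPolynomial.weightedHomogeneousComponent a (t - M) b else 0) *
          MvPolynomial.coeff x.2 P := by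
    intro x hx
    have hxi := Finset.HasAntidiagonal.mem_antidiagonal.1 hx
    by_cases hx2 : MvPolynomial.coeff x.2 P = 0
    · rw [hx2, mul_zero, mul_zero, ite_self]
    · have h1 : Finsupp.weight a x.2 = M := hP hx2
      have h2 : Finsupp.weight a i = Finsupp.weight a x.1 + M := by
        rw [← hxi, map_add, h1]
      by_cases hMt : M ≤ t
      · rw [if_pos hMt, MvPolynomial.coeff_weightedHomogeneousComponent, h2]
        by_cases h3 : Finsupp.weight a x.1 + M = t
        · rw [if_pos h3, if_pos (by omega)]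
        · rw [if_neg h3, if_neg (by omega), zero_mul]
      · rw [if_neg hMt, if_neg (by omega)]
        simp
  rw [← Finset.sum_congr rfl key]
  split_ifs
  · rfl
  · simp

/-- the coefficients of the relations can be chosen weighted homogeneous -/
theorem Arr.Res.hom {F : Arr K d m} {R : K} (hR : F.Res R)
    (hP : ∀ k, (F.P k).IsWeightedHomogeneous F.a (F.M k)) (j : Fin (d + 1)) :
    ∃ (N : ℕ) (b : Fin (d + 1) → MvPolynomial (Fin (d + 1)) K),
      (∀ k i, IsIntegral ℤ ((b k).coeff i)) ∧
      (∀ k, ∀ i ∈ (b k).support, Finsupp.weight F.a i + F.M k = N * F.a j) ∧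
      MvPolynomial.C R * MvPolynomial.X j ^ N = ∑ k, b k * F.P k := by
  classical
  obtain ⟨N, b, hb, he⟩ := hR.2.2 j
  refine ⟨N, fun k => if F.M k ≤ N * F.a j then
    MvPolynomial.weightedHomogeneousComponent F.a (N * F.a j - F.M k) (b k) else 0,
    fun k i => ?_, fun k i hi => ?_, ?_⟩
  · simp only
    split_ifs
    · rw [MvPolynomial.coeff_weightedHomogeneousComponent]
      split_ifs
      · exact hb k i
      · exact isIntegral_zero
    · rw [MvPolynomial.coeff_zero]
      exact isIntegral_zero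
  · simp only at hi
    rw [MvPolynomial.mem_support_iff] at hi
    by_cases hM : F.M k ≤ N * F.a j
    · rw [if_pos hM, MvPolynomial.coeff_weightedHomogeneousComponent] at hi
      split_ifs at hi with h
      · omega
      · exact absurd rfl hi
    · rw [if_neg hM, MvPolynomial.coeff_zero] at hi
      exact absurd rfl hi
  · have h1 : (MvPolynomial.C R * MvPolynomial.X j ^ N :
        MvPolynomial (Fin (d + 1)) K).IsWeightedHomogeneous F.a (N * F.a j) := by
      have h2 := ((MvPolynomial.isWeightedHomogeneous_X K F.a j).pow N).C_mul R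
      rwa [smul_eq_mul] at h2
    rw [← h1.weightedHomogeneousComponent_same, he, map_sum]
    exact Finset.sum_congr rfl fun k _ => comp_mul _ _ _ (hP k)

variable {F : Arr K d m}

theorem inv_deg [CharZero K] (hdeg : ∀ e k, F.c e k ≠ 0 → F.M k = F.n e)
    {T : Fin (d + 1) → Fin (m + 1)} (hT : (F.mat T).det ≠ 0) {k i : Fin (d + 1)}
    (h : (F.mat T)⁻¹ k i ≠ 0) : F.M k = F.n (T i) := by
  classical
  set A := F.mat T with hA
  have h1 : Matrix.diagonal (fun i => (F.n (T i) : K)) * A =
      A * Matrix.diagonal (fun k => (F.M k : K)) := by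
    ext i k
    rw [Matrix.diagonal_mul, Matrix.mul_diagonal]
    show (F.n (T i) : K) * F.c (T i) k = F.c (T i) k * F.M k
    by_cases hc : F.c (T i) k = 0
    · rw [hc, mul_zero, zero_mul]
    · rw [hdeg _ _ hc, mul_comm]
  have hu : IsUnit A.det := isUnit_iff_ne_zero.2 hT
  have h2 : A⁻¹ * Matrix.diagonal (fun i => (F.n (T i) : K)) =
      Matrix.diagonal (fun k => (F.M k : K)) * A⁻¹ := by
    calc A⁻¹ * Matrix.diagonal (fun i => (F.n (T i) : K))
        = A⁻¹ * (Matrix.diagonal (fun i => (F.n (T i) : K)) * A) * A⁻¹ := by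
          rw [mul_assoc, mul_assoc, Matrix.mul_nonsing_inv A hu, mul_one]
      _ = A⁻¹ * (A * Matrix.diagonal (fun k => (F.M k : K))) * A⁻¹ := by rw [h1]
      _ = _ := by rw [← mul_assoc, Matrix.nonsing_inv_mul A hu, one_mul]
  have h3 := congrFun (congrFun h2 k) i
  rw [Matrix.mul_diagonal, Matrix.diagonal_mul, mul_comm] at h3
  have h4 := mul_right_cancel₀ h h3
  exact_mod_cast h4.symm

theorem al_deg [CharZero K] (hdeg : ∀ e k, F.c e k ≠ 0 → F.M k = F.n e)
    {T : Fin (d + 1) → Fin (m + 1)} (hT : (F.mat T).det ≠ 0) {e : Fin (m + 1)}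
    {i : Fin (d + 1)} (h : F.al T e i ≠ 0) : F.n (T i) = F.n e := by
  unfold Arr.al at h
  obtain ⟨k, -, hk⟩ := Finset.exists_ne_zero_of_sum_ne_zero h
  rw [← inv_deg hdeg hT (right_ne_zero_of_mul hk)]
  exact hdeg e k (left_ne_zero_of_mul hk)

end res

end Pool.Agent.V7H64.BR
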