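import Pool.Agent.V7H64.BR.Def
set_option autoImplicit false

/-!
The number of the symbols of an arrangement of hypersurfaces in general position.
-/

namespace Pool.Agent.V7H64.BR

variable {K : Type*} [Field K] {d m : ℕ}

/-- General position: the determinants of all `d + 1` different indices are not zero, and no `F_e` is
the combination of `d + 1` other ones with the coefficients of the leading parts. -/
def Arr.General (F : Arr K d m) : Prop :=
  (∀ T : Fin (d + 1) → Fin (m + 1), Function.Injective T → (F.mat T).det ≠ 0) ∧
  ∀ (T : Fin (d + 1) → Fin (m + 1)) (e : Fin (m + 1)), StrictMono T → (∀ j, T j ≠ e) →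
    ¬ F.Thr T e

/-- In general position there are `binom(m, d + 1)` symbols. -/
theorem card_Ix {F : Arr K d m} (hF : F.General) : Fintype.card F.Ix = m.choose (d + 1) := by
  classical
  have hmem : ∀ t : {s : Finset (Fin m) // s.card = d + 1},
      F.Nbc fun k => (t.1.orderEmbOfFin t.2 k).castSucc := by
    intro t
    have hsm : StrictMono fun k => (t.1.orderEmbOfFin t.2 k).castSucc := fun i j hij =>
      Fin.castSucc_lt_castSucc_iff.2 ((t.1.orderEmbOfFin t.2).strictMono hij)
    refine ⟨hsm, hF.1 _ hsm.injective, fun i => ⟨Fin.last m, Fin.castSucc_lt_last _,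
      hF.1 _ ?_⟩, fun e he h => absurd h (hF.2 _ e hsm he)⟩
    intro p q hpq
    by_cases hp : p = i
    · by_cases hq : q = i
      · rw [hp, hq]
      · rw [hp, Function.update_self, Function.update_of_ne hq] at hpq
        exact absurd hpq.symm (Fin.castSucc_lt_last _).ne
    · by_cases hq : q = i
      · rw [hq, Function.update_self, Function.update_of_ne hp] at hpq
        exact absurd hpq (Fin.castSucc_lt_last _).ne
      · rw [Function.update_of_ne hp, Function.update_of_ne hq] at hpq
        exact hsm.injective hpq
  have hbij : Function.Bijective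
      (fun t : {s : Finset (Fin m) // s.card = d + 1} => (⟨_, hmem t⟩ : F.Ix)) := by
    refine ⟨fun t t' h => ?_, fun T => ?_⟩
    · have h1 : (fun k => (t.1.orderEmbOfFin t.2 k).castSucc) =
          fun k => (t'.1.orderEmbOfFin t'.2 k).castSucc := congrArg Subtype.val h
      apply Subtype.ext
      have h2 : Set.range (t.1.orderEmbOfFin t.2) = Set.range (t'.1.orderEmbOfFin t'.2) := by
        congr 1
        funext k
        exact Fin.castSucc_injective m (congrFun h1 k)
      rw [Finset.range_orderEmbOfFin, Finset.range_orderEmbOfFin] at h2
      exact Finset.coe_injective h2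
    · have hlt : ∀ i, (T.1 i : ℕ) < m := by
        intro i
        obtain ⟨e, he, -⟩ := T.2.2.2.1 i
        have h1 := Fin.lt_def.1 he
        have h2 := e.isLt
        omega
      set f : Fin (d + 1) → Fin m := fun i => ⟨T.1 i, hlt i⟩ with hf
      have hfm : StrictMono f := fun i j hij => by
        have h1 := Fin.lt_def.1 (T.2.1 hij)
        exact Fin.lt_def.2 h1
      have hcard : (Finset.univ.image f).card = d + 1 := by
        rw [Finset.card_image_of_injective _ hfm.injective, Finset.card_univ, Fintype.card_fin]
      refine ⟨⟨Finset.univ.image f, hcard⟩, Subtype.ext (funext fun k => ?_)⟩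
      have h3 : f = (Finset.univ.image f).orderEmbOfFin hcard :=
        Finset.orderEmbOfFin_unique hcard
          (fun x => Finset.mem_image_of_mem _ (Finset.mem_univ x)) hfm
      show ((Finset.univ.image f).orderEmbOfFin hcard k).castSucc = T.1 k
      rw [← h3]
      rfl
  have e : {s : Finset (Fin m) // s.card = d + 1} ≃ F.Ix := Equiv.ofBijective _ hbij
  rw [← Fintype.card_congr e, Fintype.card_finset_len, Fintype.card_fin]

end Pool.Agent.V7H64.BR
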