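import Pool.Agent.V7H64.BR.Small
set_option autoImplicit false

/-!
The symbols are unramified.
-/

namespace Pool.Agent.V7H64.BR

open scoped WithZero

open Pool.Agent.TH826.MK

open Pool.Agent.TH577.UA (hi kap hi_spec le_hi_of_al kap_eq kap_ne sum_al)

open Pool.Agent.N65.TU (mem_unitPart_of_block')

open Pool.Agent.N65.TL (LP Interior Tame FOpen fcst fx fz fdiv esum mon lev flau_eq
  mem_unitPart_of_tame)

variable {K : Type*} [Field K] {s d m : ℕ} {F : Arr K d m}

theorem coe_kap {T : Fin (d + 1) → Fin (m + 1)} (hT : (F.mat T).det ≠ 0) (i : Fin (d + 1)) :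
    (F.kap T i : K) = kap F.c T i := by
  unfold Arr.kap
  rw [dif_neg (show ¬ ((F.mat (Function.update T i (F.hi T i))).det / (F.mat T).det = 0) from
    kap_ne hT i)]
  rfl

section hyp

variable [CharZero K] {lam R mu : K} {L : Type*} [Field L]

/-- The symbols are unramified at all discrete valuations. -/
theorem sym_mem_unitPart {σ : K →+* ℂ} (hF : F.Admissible σ) (hR : F.Res R)
    (hmu : IsIntegral ℤ mu) (hlam : lam = mu * (R * F.Del) ^ F.Bex) (f : F.Hyp lam →+* L)
    (v : Valuation L ℤᵐ⁰) {T : Fin (d + 1) → Fin (m + 1)} (hT : (F.mat T).det ≠ 0) :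
    symb (fun l => Units.map (f : F.Hyp lam →* L) (F.u lam T l)) ∈ unitPart v (d + 1) := by
  classical
  set H : MvPolynomial (Fin (d + 1)) K →+* L := f.comp (hx (F.Phi lam)) with hH
  set z : Fin (d + 1) → Lˣ := fun k => Units.map (f : F.Hyp lam →* L)
    (Units.map (hcst (F.Phi lam) : K →* F.Hyp lam) (F.kap T k) * hdiv (F.form_dvd lam (T k)))
    with hz
  set b : Fin (m + 1) → Lˣ := fun e => Units.map (f : F.Hyp lam →* L) (hdiv (F.form_dvd lam e))
    with hb
  have hbv : ∀ e, (b e : L) = H (F.form e) := fun e => rfl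
  have hzv : ∀ k, (z k : L) = H (MvPolynomial.C (kap F.c T k)) * H (F.form (T k)) := by
    intro k
    rw [hz]
    simp only [map_mul, Units.val_mul]
    congr 1
    show f (hcst (F.Phi lam) (F.kap T k : K)) = _
    rw [coe_kap hT k]
    rfl
  have hent : ∀ k, Units.map (f : F.Hyp lam →* L) (F.u lam T k) = z k / b (F.hi T k) := by
    intro k
    unfold Arr.u
    rw [hz, hb]
    simp only [map_mul, map_div]
    rw [mul_div_assoc]
  rcases pole_or_small H v hF hR hmu hlam hT with ⟨k0, hk0⟩ | ⟨-, h2⟩
  · refine mem_unitPart_of_block' v _ (Finset.univ.filter fun k => hi F.c T k = hi F.c T k0) z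
      (b (hi F.c T k0)) (fun k hk => ?_) (l := k0)
      (Finset.mem_filter.2 ⟨Finset.mem_univ _, rfl⟩) ?_
    · rw [hent k]
      have h1 : F.hi T k = hi F.c T k0 := (Finset.mem_filter.1 hk).2
      rw [h1]
    · rw [hbv, hzv, Finset.sum_congr rfl fun k _ => hzv k]
      exact hk0
  · have h3 : v (H (F.Phi lam)) = 1 := by
      have h4 : H (F.Phi lam) = 1 := by
        show f (hx (F.Phi lam) (F.Phi lam)) = 1
        rw [hx_Phi, map_one]
      rw [h4, map_one]
    obtain ⟨h4, h5⟩ := h2 h3
    refine Submodule.subset_span ⟨_, fun l => ?_, rfl⟩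
    rw [hent l, Units.val_div_eq_div_val, map_div₀, hzv, hbv, map_mul, h4, h4, h5]
    simp

theorem sym_mem_unramified {σ : K →+* ℂ} (hF : F.Admissible σ) (hR : F.Res R)
    (hmu : IsIntegral ℤ mu) (hlam : lam = mu * (R * F.Del) ^ F.Bex) (f : F.Hyp lam →+* L)
    {T : Fin (d + 1) → Fin (m + 1)} (hT : (F.mat T).det ≠ 0) :
    KQ.map (d + 1) f (F.sym lam T) ∈ Unramified L (d + 1) := by
  unfold Arr.sym
  rw [KQ.map_symb]
  unfold Unramified
  simp only [Submodule.mem_iInf]
  intro v _
  exact sym_mem_unitPart hF hR hmu hlam f v hT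

end hyp

section fib

variable [CharZero K] {lam R mu : K} {L : Type*} [Field L] {W : LP K (s + 1)}

/-- The symbols are unramified at all discrete valuations. -/
theorem fsym_mem_unitPart {σ : K →+* ℂ} (hWint : Interior W) (hWt : Tame W)
    (hF : F.Admissible σ) (hR : F.Res R)
    (hmu : IsIntegral ℤ mu) (hlam : lam = mu * (R * F.Del) ^ F.Bex) (f : F.Fib lam W →+* L)
    (v : Valuation L ℤᵐ⁰) {T : Fin (d + 1) → Fin (m + 1)} (hT : (F.mat T).det ≠ 0) :
    symb (fun l => Units.map (f : F.Fib lam W →* L)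
      (Sum.elim (fz W (F.Phi lam)) (F.fu lam W T) ((esum s d).symm l))) ∈
      unitPart v (s + (d + 1) + 1) := by
  classical
  set H : MvPolynomial (Fin (d + 1)) K →+* L := f.comp (fx W (F.Phi lam)) with hH
  -- the entries
  set A : Fin (s + (d + 1) + 1) → Lˣ := fun l =>
    Units.map (f : F.Fib lam W →* L)
      (Sum.elim (fz W (F.Phi lam)) (F.fu lam W T) ((esum s d).symm l)) with hAdef
  set z : Fin (s + 1) → Lˣ := fun i => Units.map (f : F.Fib lam W →* L)
    (fz W (F.Phi lam) i) with hz
  set y : Fin (d + 1) → Lˣ := fun k => Units.map (f : F.Fib lam W →* L)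
    (Units.map (fcst W (F.Phi lam) : K →* F.Fib lam W) (F.kap T k) *
      fdiv W (F.form_dvd lam (T k))) with hy
  set b : Fin (m + 1) → Lˣ := fun e => Units.map (f : F.Fib lam W →* L)
    (fdiv W (F.form_dvd lam e)) with hb
  have hbv : ∀ e, (b e : L) = H (F.form e) := fun e => rfl
  have hyv : ∀ k, (y k : L) = H (MvPolynomial.C (kap F.c T k)) * H (F.form (T k)) := by
    intro k
    rw [hy]
    simp only [map_mul, Units.val_mul]
    congr 1
    show f (fcst W (F.Phi lam) (F.kap T k : K)) = _
    rw [coe_kap hT k]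
    rfl
  have hAz : ∀ i, A (esum s d (Sum.inl i)) = z i := by
    intro i
    simp only [hAdef]
    rw [Equiv.symm_apply_apply, Sum.elim_inl]
  have hAy : ∀ k, A (esum s d (Sum.inr k)) = y k / b (F.hi T k) := by
    intro k
    simp only [hAdef]
    rw [Equiv.symm_apply_apply, Sum.elim_inr]
    unfold Arr.fu
    rw [hy, hb]
    simp only [map_mul, map_div]
    rw [mul_div_assoc]
  change symb A ∈ unitPart v (s + (d + 1) + 1)
  rcases pole_or_small H v hF hR hmu hlam hT with ⟨k0, hk0⟩ | ⟨hP1, hP2⟩
  · -- a pole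
    set emb : Fin (d + 1) ↪ Fin (s + (d + 1) + 1) :=
      ⟨fun k => esum s d (Sum.inr k), fun k l h =>
        Sum.inr_injective ((esum s d).injective h)⟩ with hemb
    set y' : Fin (s + (d + 1) + 1) → Lˣ := fun l =>
      Sum.elim (fun _ => (1 : Lˣ)) y ((esum s d).symm l) with hy'
    have hy'e : ∀ k, y' (emb k) = y k := by
      intro k
      show Sum.elim (fun _ => (1 : Lˣ)) y ((esum s d).symm (esum s d (Sum.inr k))) = _
      rw [Equiv.symm_apply_apply, Sum.elim_inr]
    refine mem_unitPart_of_block' v A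
      ((Finset.univ.filter fun k => hi F.c T k = hi F.c T k0).map emb) y' (b (hi F.c T k0))
      (fun l hl => ?_) (l := emb k0)
      (Finset.mem_map_of_mem _ (Finset.mem_filter.2 ⟨Finset.mem_univ _, rfl⟩)) ?_
    · obtain ⟨k, hk, rfl⟩ := Finset.mem_map.1 hl
      rw [hy'e, ← (Finset.mem_filter.1 hk).2]
      exact hAy k
    · rw [Finset.sum_map, hbv]
      simp only [hy'e]
      rw [Finset.sum_congr rfl fun k _ => hyv k, hyv]
      exact hk0
  · have heqn : lev (f.comp (fcst W (F.Phi lam))) z W = H (F.Phi lam) :=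
      flau_eq W (F.Phi lam) f
    by_cases hsm : ∃ m0, W.coeff m0 ≠ 0 ∧ v (H (F.Phi lam)) < v ((mon z m0 : Lˣ) : L)
    · obtain ⟨m0, hm0, hlt⟩ := hsm
      have hzA : (fun j => A (esum s d (Sum.inl j))) = z := funext hAz
      refine mem_unitPart_of_tame (f.comp (fcst W (F.Phi lam))) v A
        (p := fun i => esum s d (Sum.inl i)) (fun i j h =>
          Sum.inl_injective ((esum s d).injective h)) hWt hm0 ?_
      rw [hzA, heqn]
      exact hlt
    · push Not at hsm
      -- all `z_i` are units
      choose k hk using fun j => exists_ord v (z j)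
      have hvm : ∀ m : Fin (s + 1) → ℤ, v ((mon z m : Lˣ) : L) =
          WithZero.exp (∑ j, k j * m j) := by
        intro m
        unfold mon
        rw [Units.coe_prod, map_prod]
        have h2 : ∀ t : Finset (Fin (s + 1)), ∏ j ∈ t, v ((z j ^ m j : Lˣ) : L) =
            WithZero.exp (∑ j ∈ t, k j * m j) := by
          intro t
          induction t using Finset.induction_on with
          | empty => simp
          | insert j t hj ih =>
            rw [Finset.prod_insert hj, Finset.sum_insert hj, WithZero.exp_add, ih,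
              Units.val_zpow_eq_zpow_val, map_zpow₀, hk, ← WithZero.exp_zsmul, smul_eq_mul,
              mul_comm (m j)]
        exact h2 Finset.univ
      have hk0 : k = 0 := by
        by_contra hne
        obtain ⟨m0, hm0, hpos⟩ := hWint k hne
        have h1 := (hsm m0 hm0).trans hP1
        rw [hvm, ← WithZero.exp_zero, WithZero.exp_le_exp] at h1
        omega
      have hz1 : ∀ i, v (z i : L) = 1 := by
        intro i
        rw [hk i, hk0, Pi.zero_apply, WithZero.exp_zero]
      obtain ⟨m0, hm0, -⟩ := hWint (fun _ => 1) (fun h => by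
        have := congrFun h 0
        simp at this)
      have hP3 : v (H (F.Phi lam)) = 1 := by
        refine le_antisymm hP1 ?_
        have h1 := hsm m0 hm0
        rw [hvm, hk0] at h1
        simpa using h1
      obtain ⟨h4, h5⟩ := hP2 hP3
      refine Submodule.subset_span ⟨A, fun l => ?_, rfl⟩
      obtain ⟨r, rfl⟩ := (esum s d).surjective l
      rcases r with i | k
      · rw [hAz]
        exact hz1 i
      · rw [hAy, Units.val_div_eq_div_val, map_div₀, hyv, hbv, map_mul, h4, h4, h5]
        simp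

theorem fsym_mem_unramified {σ : K →+* ℂ} (hWint : Interior W) (hWt : Tame W)
    (hF : F.Admissible σ) (hR : F.Res R)
    (hmu : IsIntegral ℤ mu) (hlam : lam = mu * (R * F.Del) ^ F.Bex) (f : F.Fib lam W →+* L)
    {T : Fin (d + 1) → Fin (m + 1)} (hT : (F.mat T).det ≠ 0) :
    KQ.map (s + (d + 1) + 1) f (F.fsym lam W T) ∈ Unramified L (s + (d + 1) + 1) := by
  unfold Arr.fsym
  rw [KQ.map_symb]
  unfold Unramified
  simp only [Submodule.mem_iInf]
  intro v _
  exact fsym_mem_unitPart hWint hWt hF hR hmu hlam f v hT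

end fib

end Pool.Agent.V7H64.BR
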