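import Pool.Agent.V7H64.BR.TorA
import Pool.Agent.N65.TL.Fam
set_option autoImplicit false

/-!
The regulators of the symbols on the fibrations `W(z) = λ g ∏_e F_e ^ (w_e + 1)`, for large `λ`.
-/

namespace Pool.Agent.V7H64.BR

open Filter Topology

open Pool.Agent.TH826.MK

open Pool.Agent.TH826.SX (pairing_close det_ne_zero_near)

open Pool.Agent.TH577.UA (yrow mrow mmon mmon_zero_eq det_yrow det_ne_zero_of_tri stp exists_root
  good_pow)

open Pool.Agent.N65.TL (LP Interior FOpen fcst fx fz fdiv esum zmat det_zmat dot bdir exists_vertex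
  exists_z yk contDiff_yk yk_add_single mmon_yk mk1 good_mk1 per_mk1 lw_mk1 log_mk1 mk1_pow
  mmon_prod exists_rho FPt mkF esum_zero esum_castAdd esum_natAdd)

section mat

variable {s d m : ℕ}

/-- the orders of `Φ` in the chart at the vertex of `T` -/
def nu (w : Fin (m + 1) → ℕ) (μ : Fin (m + 1) → Fin (d + 1) → ℕ) (j : Fin (d + 1)) : ℕ :=
  ∑ e, (w e + 1) * μ e j

/-- the matrix of the orders of the entries -/
noncomputable def RmG (al v : Fin (s + 1) → ℤ) (i0 : Fin (s + 1)) (w : Fin (m + 1) → ℕ)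
    (μ : Fin (m + 1) → Fin (d + 1) → ℕ) (p q : Fin (d + 1) → Fin (m + 1)) :
    Matrix (Fin (s + (d + 1) + 1)) (Fin (s + (d + 1) + 1)) ℝ :=
  (Matrix.fromBlocks (zmat al v i0) (Matrix.of fun i j => (al i : ℝ) * nu w μ j) 0
    (Matrix.of fun l j => ((dot al v : ℤ) : ℝ) *
      ((μ (p l) j : ℝ) - μ (q l) j))).submatrix
    (esum s d).symm (esum s d).symm

theorem det_RmG (al v : Fin (s + 1) → ℤ) (i0 : Fin (s + 1)) (w : Fin (m + 1) → ℕ)
    (μ : Fin (m + 1) → Fin (d + 1) → ℕ) (p q : Fin (d + 1) → Fin (m + 1)) :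
    (RmG al v i0 w μ p q).det =
      (zmat al v i0).det * (((dot al v : ℤ) : ℝ) ^ (d + 1) * ldet μ p q) := by
  classical
  unfold RmG
  rw [Matrix.det_submatrix_equiv_self, Matrix.det_fromBlocks_zero₂₁]
  congr 1
  have h : (Matrix.of fun l j => ((dot al v : ℤ) : ℝ) *
      ((μ (p l) j : ℝ) - μ (q l) j)) = ((dot al v : ℤ) : ℝ) •
        (Matrix.of fun l j => (μ (p l) j : ℝ) - μ (q l) j) := by
    ext l j
    rw [Matrix.smul_apply, Matrix.of_apply, Matrix.of_apply, smul_eq_mul]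
  rw [h, Matrix.det_smul, Fintype.card_fin]
  rfl

variable {al v : Fin (s + 1) → ℤ} {i0 : Fin (s + 1)} {w : Fin (m + 1) → ℕ}
  {μ : Fin (m + 1) → Fin (d + 1) → ℕ} {p q : Fin (d + 1) → Fin (m + 1)}

theorem RmG_z_zero (i : Fin (s + 1)) :
    RmG al v i0 w μ p q (esum s d (Sum.inl i)) 0 = (al i : ℝ) / dot al v := by
  unfold RmG
  rw [Matrix.submatrix_apply, Equiv.symm_apply_apply, ← esum_zero (s := s) (d := d),
    Equiv.symm_apply_apply, Matrix.fromBlocks_apply₁₁]
  rfl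

theorem RmG_z_succ (i : Fin (s + 1)) (j : Fin (s + (d + 1))) :
    RmG al v i0 w μ p q (esum s d (Sum.inl i)) j.succ =
      al i * (∑ i', if j = Fin.natAdd s i' then (nu w μ i' : ℝ) else 0) +
        ∑ l, if j = Fin.castAdd (d + 1) l then (bdir v i0 l i : ℝ) else 0 := by
  have hcn : ∀ (l : Fin s) (i' : Fin (d + 1)), Fin.castAdd (d + 1) l ≠ Fin.natAdd s i' := by
    intro l i' h
    have h1 := congrArg Fin.val h
    rw [Fin.val_castAdd, Fin.val_natAdd] at h1
    have := l.isLt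
    omega
  unfold RmG
  rw [Matrix.submatrix_apply, Equiv.symm_apply_apply]
  refine Fin.addCases (fun l => ?_) (fun i' => ?_) j
  · rw [← esum_castAdd, Equiv.symm_apply_apply, Matrix.fromBlocks_apply₁₁]
    rw [Finset.sum_eq_zero (fun i' _ => if_neg (hcn l i')), mul_zero, zero_add,
      Finset.sum_eq_single l]
    · rw [if_pos rfl]
      rfl
    · intro l' _ hl'
      rw [if_neg fun h => hl' (Fin.castAdd_injective _ _ h).symm]
    · intro h
      exact absurd (Finset.mem_univ _) h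
  · rw [← esum_natAdd, Equiv.symm_apply_apply, Matrix.fromBlocks_apply₁₂, Matrix.of_apply]
    rw [Finset.sum_eq_zero (s := Finset.univ) (f := fun l => if Fin.natAdd s i' =
      Fin.castAdd (d + 1) l then (bdir v i0 l i : ℝ) else 0)
      (fun l _ => if_neg (fun h => hcn l i' h.symm)), add_zero, Finset.sum_eq_single i']
    · rw [if_pos rfl]
    · intro l' _ hl'
      rw [if_neg fun h => hl' (Fin.natAdd_injective _ _ h).symm]
    · intro h
      exact absurd (Finset.mem_univ _) h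

theorem RmG_u_zero (i : Fin (d + 1)) :
    RmG al v i0 w μ p q (esum s d (Sum.inr i)) 0 = 0 := by
  unfold RmG
  rw [Matrix.submatrix_apply, Equiv.symm_apply_apply, ← esum_zero (s := s) (d := d),
    Equiv.symm_apply_apply, Matrix.fromBlocks_apply₂₁]
  rfl

theorem RmG_u_succ (i : Fin (d + 1)) (j : Fin (s + (d + 1))) :
    RmG al v i0 w μ p q (esum s d (Sum.inr i)) j.succ =
      ∑ i', if j = Fin.natAdd s i' then ((dot al v : ℤ) : ℝ) *
        ((μ (p i) i' : ℝ) - μ (q i) i') else 0 := by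
  have hcn : ∀ (l : Fin s) (i' : Fin (d + 1)), Fin.castAdd (d + 1) l ≠ Fin.natAdd s i' := by
    intro l i' h
    have h1 := congrArg Fin.val h
    rw [Fin.val_castAdd, Fin.val_natAdd] at h1
    have := l.isLt
    omega
  unfold RmG
  rw [Matrix.submatrix_apply, Equiv.symm_apply_apply]
  refine Fin.addCases (fun l => ?_) (fun i' => ?_) j
  · rw [← esum_castAdd, Equiv.symm_apply_apply, Matrix.fromBlocks_apply₂₁]
    rw [Finset.sum_eq_zero (fun i' _ => if_neg (hcn l i'))]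
    rfl
  · rw [← esum_natAdd, Equiv.symm_apply_apply, Matrix.fromBlocks_apply₂₂, Matrix.of_apply]
    rw [Finset.sum_eq_single i']
    · rw [if_pos rfl]
    · intro l' _ hl'
      rw [if_neg fun h => hl' (Fin.natAdd_injective _ _ h).symm]
    · intro h
      exact absurd (Finset.mem_univ _) h

end mat

section main

variable {K : Type*} [Field K] {s d m : ℕ} {W : LP K (s + 1)} {F : Arr K d m} {σ : K →+* ℂ}
  {μ : Fin (m + 1) → Fin (d + 1) → ℕ}

/-- The units `κ_i F_{p i} / F_{q i}` of the open part. -/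
noncomputable def gu (W : LP K (s + 1)) (F : Arr K d m) (lam : K) (κ : Fin (d + 1) → Kˣ)
    (p q : Fin (d + 1) → Fin (m + 1)) (i : Fin (d + 1)) : (F.Fib lam W)ˣ :=
  Units.map (fcst W (F.Phi lam) : K →* F.Fib lam W) (κ i) *
    (fdiv W (F.form_dvd lam (p i)) / fdiv W (F.form_dvd lam (q i)))

theorem gu_mul (W : LP K (s + 1)) (F : Arr K d m) (lam : K) (κ : Fin (d + 1) → Kˣ)
    (p q : Fin (d + 1) → Fin (m + 1)) (i : Fin (d + 1)) :
    (gu W F lam κ p q i : F.Fib lam W) * (fdiv W (F.form_dvd lam (q i)) : F.Fib lam W) =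
      (Units.map (fcst W (F.Phi lam) : K →* F.Fib lam W) (κ i) : F.Fib lam W) *
        (fdiv W (F.form_dvd lam (p i)) : F.Fib lam W) := by
  rw [← Units.val_mul, ← Units.val_mul]
  unfold gu
  rw [mul_assoc, div_mul_cancel]

/-- The entries `z_0, ..., z_s, u_0, ..., u_d`. -/
noncomputable def gent (W : LP K (s + 1)) (F : Arr K d m) (lam : K) (κ : Fin (d + 1) → Kˣ)
    (p q : Fin (d + 1) → Fin (m + 1)) (l : Fin (s + (d + 1) + 1)) : (F.Fib lam W)ˣ :=
  Sum.elim (fz W (F.Phi lam)) (gu W F lam κ p q) ((esum s d).symm l)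

theorem exists_torusG (ch : Chart F σ μ) {al v : Fin (s + 1) → ℤ} (hv : W.coeff v ≠ 0)
    (hpos : 0 < dot al v) (hmax : ∀ m, W.coeff m ≠ 0 → m ≠ v → dot al m < dot al v)
    (i0 : Fin (s + 1)) {I : Type*} [Fintype I] [Nonempty I] (kp : I → Fin (d + 1) → Kˣ)
    (pp qq : I → Fin (d + 1) → Fin (m + 1)) {ε : ℝ} (hε : 0 < ε) :
    ∃ Λ0 : ℝ, 1 < Λ0 ∧ ∀ lam : K, Λ0 ≤ ‖σ lam‖ →
      ∃ Γ : Torus (F.Fib lam W) (s + (d + 1)),
        (∀ θ x, Γ.e θ (fcst W (F.Phi lam) x) = σ x) ∧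
        ∀ T' : I,
          |Γ.reg (symb (gent W F lam (kp T') (pp T') (qq T'))) / Real.log ‖σ lam‖ -
            (2 * Real.pi) ^ (s + (d + 1)) * (RmG al v i0 F.w μ (pp T') (qq T')).det| ≤ ε := by
  classical
  have hpi := Real.pi_pos
  have hnpi : ‖(2 * Real.pi * Complex.I : ℂ)‖ = 2 * Real.pi := by
    rw [norm_mul, norm_mul, Complex.norm_I, Complex.norm_real, Complex.norm_ofNat, mul_one,
      Real.norm_eq_abs, abs_of_pos Real.pi_pos]
  set k : ℕ := (dot al v).toNat with hk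
  have hkz : (k : ℤ) = dot al v := Int.toNat_of_nonneg hpos.le
  have hk0 : 0 < k := by omega
  have hkR : (0 : ℝ) < k := by exact_mod_cast hk0
  have hkzR : ((dot al v : ℤ) : ℝ) = k := by
    rw [← hkz]
    simp
  have hσv : σ (W.coeff v) ≠ 0 := (map_ne_zero σ).2 hv
  -- tolerances
  choose δ hδ hclose using fun T' : I =>
    pairing_close (RmG al v i0 F.w μ (pp T') (qq T')) hε
  obtain ⟨T0, -, hT0⟩ := Finset.exists_min_image Finset.univ δ
    ⟨Classical.arbitrary I, Finset.mem_univ _⟩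
  set A : ℝ := 1 + ∑ i, |(al i : ℝ)| with hA
  have hA1 : 1 ≤ A := by
    have : 0 ≤ ∑ i, |(al i : ℝ)| := Finset.sum_nonneg fun i _ => abs_nonneg _
    linarith
  have hAi : ∀ i, |(al i : ℝ)| ≤ A := by
    intro i
    have h1 := Finset.single_le_sum (f := fun i => |(al i : ℝ)|) (fun i _ => abs_nonneg _)
      (Finset.mem_univ i)
    have h2 : |(al i : ℝ)| ≤ ∑ i, |(al i : ℝ)| := h1
    linarith
  set δ0 : ℝ := δ T0 / (4 * A) with hδ0
  have hδ0pos : 0 < δ0 := div_pos (hδ T0) (by linarith)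
  have hδle : ∀ T', 3 * (A * δ0) < δ T' := by
    intro T'
    have h1 := hT0 T' (Finset.mem_univ T')
    have h2 : δ T0 = 4 * (A * δ0) := by
      rw [hδ0]
      field_simp
    have h3 : 0 < A * δ0 := by positivity
    linarith
  have hδA : δ0 ≤ A * δ0 := le_mul_of_one_le_left hδ0pos.le hA1
  -- the chart
  set h := ch.h with hh
  have hfac := ch.fac
  have hcd := ch.h_smooth
  have hne := ch.h_ne
  set Q : (Fin d → ℂ) × ℂ → ℂ := fun y =>
    MvPolynomial.eval₂ σ (ch.x y) F.g * ∏ e, h e y ^ (F.w e + 1) with hQ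
  have hgc : ContDiffAt ℂ 2 (fun y => MvPolynomial.eval₂ σ (ch.x y) F.g) 0 :=
    (contDiff_poly σ F.g).contDiffAt.comp (0 : (Fin d → ℂ) × ℂ) ch.x_smooth
  have hg0 : MvPolynomial.eval₂ σ (ch.x 0) F.g ≠ 0 := ch.g_ne
  have hQc : ContDiffAt ℂ 2 Q 0 := hgc.mul (contDiffAt_prod fun e _ => (hcd e).pow _)
  have hQ0 : Q 0 ≠ 0 := mul_ne_zero hg0
    (Finset.prod_ne_zero_iff.2 fun e _ => pow_ne_zero _ (hne e))
  obtain ⟨Rt, hRc, hR0, hRe⟩ := exists_root Q hQc hQ0 hk0
  obtain ⟨C, ρ, hC, hρ, hρ1, hrho⟩ := exists_rho hk0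
    (fun (e : Option (Fin (m + 1))) y => Option.elim e (Rt y) fun e => h e y)
    (fun e => by
      cases e with
      | none => exact hRc
      | some e => exact hcd e)
    (fun e => by
      cases e with
      | none => exact hR0
      | some e => exact hne e)
    (P := fun y => Rt y ^ k = Q y ∧ ContDiffAt ℂ 2 ch.x y ∧
      ∀ e, MvPolynomial.eval₂ σ (ch.x y) (F.form e) = mmon (μ e) y * h e y)
    (hRe.and ((ch.x_smooth.eventually (by norm_num)).and hfac)) hδ0pos
  -- the functions `z_i`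
  set N : Fin (d + 1) → ℕ := nu F.w μ with hN
  set B : ℝ := 2 * Real.pi * ∑ i, (N i : ℝ) + δ0 with hB
  have hB0 : 0 ≤ B := by positivity
  obtain ⟨R, hR1, hz⟩ := exists_z σ hv hpos hmax i0 hB0 hδ0pos
  -- constants
  set G : ℝ := ∑ T' : I, ∑ i, |Real.log ‖σ (kp T' i)‖| with hG
  have hG0 : 0 ≤ G := Finset.sum_nonneg fun S _ => Finset.sum_nonneg fun i _ => abs_nonneg _
  have hGS : ∀ S i, |Real.log ‖σ (kp S i)‖| ≤ G := fun S i =>
    (Finset.single_le_sum (f := fun i => |Real.log ‖σ (kp S i)‖|)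
      (fun i _ => abs_nonneg _) (Finset.mem_univ i)).trans
    (Finset.single_le_sum (f := fun S => ∑ i, |Real.log ‖σ (kp S i)‖|)
      (fun S _ => Finset.sum_nonneg fun i _ => abs_nonneg _) (Finset.mem_univ S))
  set Mu : ℝ := ∑ e, ∑ i, (μ e i : ℝ) with hMu
  have hMu0 : 0 ≤ Mu := by positivity
  have hMue : ∀ e, ∑ i, (μ e i : ℝ) ≤ Mu := fun e =>
    Finset.single_le_sum (f := fun e => ∑ i, (μ e i : ℝ))
      (fun e _ => Finset.sum_nonneg fun i _ => Nat.cast_nonneg _) (Finset.mem_univ e)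
  set C1 : ℝ := k * Mu * |Real.log ρ| + C with hC1
  have hC10 : 0 ≤ C1 := by positivity
  set C2 : ℝ := |Real.log ‖σ (W.coeff v)‖| + (∑ i, (N i : ℝ)) * |Real.log ρ| + C with hC2
  have hC20 : 0 ≤ C2 := by positivity
  set M : ℝ := (A * C2 + δ0) / δ0 + (G + 2 * C1) / δ0 + k * (Real.log R + C2) + 1 with hM
  have hlogR : 0 ≤ Real.log R := Real.log_nonneg hR1
  have hM1 : 0 ≤ (A * C2 + δ0) / δ0 := by positivity
  have hM2 : 0 ≤ (G + 2 * C1) / δ0 := by positivity
  have hM3 : 0 ≤ k * (Real.log R + C2) := by positivity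
  refine ⟨Real.exp M + 1, by linarith [Real.exp_pos M], fun lam hlam => ?_⟩
  have hln : 0 < ‖σ lam‖ := by linarith [Real.exp_pos M]
  have hl0 : σ lam ≠ 0 := norm_pos_iff.1 hln
  set t : ℝ := Real.log ‖σ lam‖ with ht
  have htM : M ≤ t := by
    rw [ht, Real.le_log_iff_exp_le hln]
    linarith
  have htpos : 0 < t := by linarith
  have ht0 : t ≠ 0 := htpos.ne'
  -- the positions of the angles
  obtain ⟨hRy, hfun⟩ := hrho (s + (d + 1)) (Fin.natAdd s)
  set Y : (Fin (s + (d + 1)) → ℝ) → (Fin d → ℂ) × ℂ := yk k ρ (Fin.natAdd s) with hY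
  have hhg : ∀ e, Good fun θ => h e (Y θ) := fun e => (hfun (some e)).1
  have hhlog : ∀ e θ, |Real.log ‖h e (Y θ)‖| ≤ C := fun e θ => ((hfun (some e)).2 θ).1
  have hhlw : ∀ e θ j, ‖lw (fun θ => h e (Y θ)) j θ‖ ≤ δ0 := fun e θ j =>
    ((hfun (some e)).2 θ).2 j
  have hRg : Good fun θ => Rt (Y θ) := (hfun none).1
  have hRlog : ∀ θ, |Real.log ‖Rt (Y θ)‖| ≤ C := fun θ => ((hfun none).2 θ).1
  have hRlw : ∀ θ j, ‖lw (fun θ => Rt (Y θ)) j θ‖ ≤ δ0 := fun θ j => ((hfun none).2 θ).2 j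
  set X : (Fin (s + (d + 1)) → ℝ) → Fin (d + 1) → ℂ := fun θ => ch.x (Y θ) with hX
  have hXc : ContDiff ℝ 2 X := by
    rw [contDiff_iff_contDiffAt]
    intro θ
    exact ((hRy θ).2.1.restrict_scalars ℝ).comp θ (contDiff_yk hρ).contDiffAt
  have hfY : ∀ θ e, MvPolynomial.eval₂ σ (ch.x (Y θ)) (F.form e) = mmon (μ e) (Y θ) * h e (Y θ) :=
    fun θ => (hRy θ).2.2
  have hXp : ∀ θ j, X (θ + Pi.single j 1) = X θ := fun θ j => by
    simp only [hX, hY, yk_add_single]
  -- the forms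
  have hLfun : ∀ e, (fun θ => MvPolynomial.eval₂ σ (X θ) (F.form e)) =
      fun θ => mk1 ρ (Fin.natAdd s) (fun i => k * μ e i) θ * h e (Y θ) := by
    intro e
    funext θ
    have h1 := hfY θ e
    rw [show MvPolynomial.eval₂ σ (X θ) (F.form e) =
      MvPolynomial.eval₂ σ (ch.x (Y θ)) (F.form e) from rfl, h1, hY, mmon_yk]
  have hLg : ∀ e, Good fun θ => MvPolynomial.eval₂ σ (X θ) (F.form e) := fun e => by
    rw [hLfun]
    exact (good_mk1 hρ _).mul (hhg e)
  have hLlog : ∀ e θ, |Real.log ‖MvPolynomial.eval₂ σ (X θ) (F.form e)‖| ≤ C1 := by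
    intro e θ
    rw [congrFun (hLfun e) θ, norm_mul, Real.log_mul
      (norm_ne_zero_iff.2 ((good_mk1 hρ _).ne_zero θ)) (norm_ne_zero_iff.2 ((hhg e).ne_zero θ)),
      log_mk1 hρ]
    refine (abs_add_le _ _).trans (add_le_add ?_ (hhlog e θ))
    rw [abs_mul]
    refine mul_le_mul_of_nonneg_right ?_ (abs_nonneg _)
    have h1 : ∑ i, (((k * μ e i : ℕ)) : ℝ) = k * ∑ i, (μ e i : ℝ) := by
      push_cast
      rw [Finset.mul_sum]
    rw [h1, abs_of_nonneg (by positivity)]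
    exact mul_le_mul_of_nonneg_left (hMue e) hkR.le
  have hLlw : ∀ e θ j, ‖lw (fun θ => MvPolynomial.eval₂ σ (X θ) (F.form e)) j θ - 2 * Real.pi * Complex.I *
      ∑ i, (if j = Fin.natAdd s i then (((k * μ e i : ℕ)) : ℂ) else 0)‖ ≤ δ0 := by
    intro e θ j
    rw [hLfun, lw_mul (good_mk1 hρ _) (hhg e), lw_mk1 hρ, add_sub_cancel_left]
    exact hhlw e θ j
  -- the root `Λ`
  obtain ⟨κ, hκ⟩ := IsAlgClosed.exists_pow_nat_eq (σ lam / σ (W.coeff v)) hk0
  have hκ0 : κ ≠ 0 := by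
    rintro rfl
    rw [zero_pow hk0.ne'] at hκ
    exact (div_ne_zero hl0 hσv) hκ.symm
  set Λ : (Fin (s + (d + 1)) → ℝ) → ℂ := fun θ =>
    κ * (mk1 ρ (Fin.natAdd s) N θ * Rt (Y θ)) with hΛ
  have hmg : Good (mk1 ρ (Fin.natAdd s (m := d + 1)) N) := good_mk1 hρ N
  have hΛg : Good Λ := (good_const hκ0).mul (hmg.mul hRg)
  have hΛp : Per Λ := by
    intro θ j
    simp only [hΛ]
    have h1 := per_mk1 (ρ := ρ) (p := Fin.natAdd s (m := d + 1)) N θ j
    have h2 : Y (θ + Pi.single j 1) = Y θ := by rw [hY, yk_add_single]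
    rw [h1, h2]
  have hlogκ : Real.log ‖κ‖ = (t - Real.log ‖σ (W.coeff v)‖) / k := by
    have h1 : (k : ℝ) * Real.log ‖κ‖ = t - Real.log ‖σ (W.coeff v)‖ := by
      rw [← Real.log_pow, ← norm_pow, hκ, norm_div, Real.log_div hln.ne'
        (norm_ne_zero_iff.2 hσv)]
    rw [← h1]
    field_simp
  have hΛlog : ∀ θ, |Real.log ‖Λ θ‖ - t / k| ≤ C2 := by
    intro θ
    have h1 : Real.log ‖Λ θ‖ = Real.log ‖κ‖ + ((∑ i, (N i : ℝ)) * Real.log ρ +
        Real.log ‖Rt (Y θ)‖) := by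
      simp only [hΛ]
      rw [norm_mul, norm_mul, Real.log_mul (norm_ne_zero_iff.2 hκ0)
        (mul_ne_zero (norm_ne_zero_iff.2 (hmg.ne_zero θ))
          (norm_ne_zero_iff.2 (hRg.ne_zero θ))), Real.log_mul
          (norm_ne_zero_iff.2 (hmg.ne_zero θ)) (norm_ne_zero_iff.2 (hRg.ne_zero θ)),
        log_mk1 hρ]
    rw [h1, hlogκ]
    have h2 : (t - Real.log ‖σ (W.coeff v)‖) / k + ((∑ i, (N i : ℝ)) * Real.log ρ +
        Real.log ‖Rt (Y θ)‖) - t / k = -(Real.log ‖σ (W.coeff v)‖ / k) +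
        ((∑ i, (N i : ℝ)) * Real.log ρ + Real.log ‖Rt (Y θ)‖) := by
      ring
    rw [h2]
    refine (abs_add_le _ _).trans ?_
    rw [hC2, add_assoc]
    refine add_le_add ?_ ((abs_add_le _ _).trans (add_le_add ?_ (hRlog θ)))
    · rw [abs_neg, abs_div, abs_of_pos hkR]
      have h3 : (1 : ℝ) ≤ k := by exact_mod_cast hk0
      exact div_le_self (abs_nonneg _) h3
    · rw [abs_mul, abs_of_nonneg (by positivity)]
  have hΛR : ∀ θ, R ≤ ‖Λ θ‖ := by
    intro θ
    have h1 := (abs_le.1 (hΛlog θ)).1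
    have h2 : Real.log R ≤ Real.log ‖Λ θ‖ := by
      have h3 : Real.log R + C2 ≤ t / k := by
        rw [le_div_iff₀ hkR]
        linarith
      linarith
    exact (Real.log_le_log_iff (by linarith) (norm_pos_iff.2 (hΛg.ne_zero θ))).1 h2
  have hΛlw : ∀ θ j, ‖lw Λ j θ - 2 * Real.pi * Complex.I *
      ∑ i, (if j = Fin.natAdd s i then (N i : ℂ) else 0)‖ ≤ δ0 := by
    intro θ j
    have h1 := lw_mul (good_const (d := s + (d + 1)) hκ0) (hmg.mul hRg) j θ
    rw [lw_const, zero_add, lw_mul hmg hRg, lw_mk1 hρ] at h1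
    have h2 : lw Λ j θ = _ := h1
    rw [h2, add_sub_cancel_left]
    exact hRlw θ j
  have hNsum : ∀ j : Fin (s + (d + 1)), ‖∑ i, (if j = Fin.natAdd s i then (N i : ℂ) else 0)‖ ≤
      ∑ i, (N i : ℝ) := by
    intro j
    refine (norm_sum_le _ _).trans (Finset.sum_le_sum fun i _ => ?_)
    split_ifs
    · rw [Complex.norm_natCast]
    · rw [norm_zero]
      exact Nat.cast_nonneg _
  have hΛB : ∀ j θ, ‖lw Λ j θ‖ ≤ B := by
    intro j θ
    have h1 := norm_sub_norm_le (lw Λ j θ) (2 * Real.pi * Complex.I *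
      ∑ i, (if j = Fin.natAdd s i then (N i : ℂ) else 0))
    have h2 := hΛlw θ j
    have h3 : ‖(2 * Real.pi * Complex.I * ∑ i, (if j = Fin.natAdd s i then (N i : ℂ) else 0) : ℂ)‖
        ≤ 2 * Real.pi * ∑ i, (N i : ℝ) := by
      rw [norm_mul, hnpi]
      exact mul_le_mul_of_nonneg_left (hNsum j) (by positivity)
    rw [hB]
    linarith
  have hΛk : ∀ θ, σ (W.coeff v) * Λ θ ^ k =
      MvPolynomial.eval₂ σ (X θ) (F.Phi lam) := by
    intro θ
    have h1 := eval_Phi (F := F) (σ := σ) lam (X θ)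
    have h2 : ∏ e, MvPolynomial.eval₂ σ (X θ) (F.form e) ^ (F.w e + 1) =
        mk1 ρ (Fin.natAdd s) N θ ^ k * ∏ e, h e (Y θ) ^ (F.w e + 1) := by
      have h3 : ∀ e, MvPolynomial.eval₂ σ (X θ) (F.form e) = mmon (μ e) (Y θ) * h e (Y θ) := fun e =>
        hfY θ e
      simp only [h3, mul_pow, Finset.prod_mul_distrib]
      congr 1
      rw [mmon_prod (fun e => μ e) (fun e => F.w e + 1), ← mk1_pow, hY]
      exact mmon_yk _ θ
    have h4 : Rt (Y θ) ^ k = Q (Y θ) := (hRy θ).1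
    rw [h1, h2]
    simp only [hΛ]
    have hXe : X θ = ch.x (Y θ) := rfl
    rw [mul_pow, mul_pow, hκ, h4, hQ, hXe]
    field_simp
  obtain ⟨Z, hZg, hZp, hZlog, hZlw, hZeq⟩ := hz (s + (d + 1)) (Fin.castAdd (d + 1)) Λ hΛg hΛp
    hΛR hΛB
  have hPt : ∀ θ, FPt σ W (F.Phi lam) (X θ) fun i => Z i θ := fun θ =>
    { ne := fun i => (hZg i).ne_zero θ
      eq := (hZeq θ).trans (hΛk θ)
      phi := by
        rw [← hΛk θ]
        exact mul_ne_zero hσv (pow_ne_zero _ (hΛg.ne_zero θ)) }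
  set Γ := mkF hXc hZg hPt hXp hZp with hΓ
  refine ⟨Γ, fun θ x => (hPt θ).evA_fcst x, fun T' => ?_⟩
  rw [Torus.reg_symb]
  have hgoodE : ∀ l, Good (Γ.fn (gent W F lam (kp T') (pp T') (qq T') l : F.Fib lam W)) :=
    fun l => Γ.good _
  have hzfn : ∀ i, Γ.fn (gent W F lam (kp T') (pp T') (qq T') (esum s d (Sum.inl i)) :
      F.Fib lam W) = Z i := by
    intro i
    have h1 : gent W F lam (kp T') (pp T') (qq T') (esum s d (Sum.inl i)) = fz W (F.Phi lam) i := by
      unfold gent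
      rw [Equiv.symm_apply_apply, Sum.elim_inl]
    rw [h1]
    funext θ
    exact (hPt θ).evA_fz i
  have hufn : ∀ i : Fin (d + 1), (fun θ => Γ.fn (gent W F lam (kp T') (pp T') (qq T') (esum s d (Sum.inr i)) :
      F.Fib lam W) θ * MvPolynomial.eval₂ σ (X θ) (F.form (qq T' i))) =
        fun θ => σ (kp T' i) * MvPolynomial.eval₂ σ (X θ) (F.form (pp T' i)) := by
    intro i
    have h1 : gent W F lam (kp T') (pp T') (qq T') (esum s d (Sum.inr i)) = gu W F lam (kp T') (pp T') (qq T') i := by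
      unfold gent
      rw [Equiv.symm_apply_apply, Sum.elim_inr]
    rw [h1]
    funext θ
    have h2 : ∀ e, MvPolynomial.eval₂ σ (X θ) (F.form e) =
        (hPt θ).evA (fdiv W (F.form_dvd lam e) : F.Fib lam W) := by
      intro e
      have h3 : (fdiv W (F.form_dvd lam e) : F.Fib lam W) =
        fx W (F.Phi lam) (F.form e) := rfl
      rw [h3, (hPt θ).evA_fx]
    have h4 : σ (kp T' i) = (hPt θ).evA (Units.map (fcst W (F.Phi lam) :
        K →* F.Fib lam W) (kp T' i) : F.Fib lam W) := by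
      have h3 : (Units.map (fcst W (F.Phi lam) : K →* F.Fib lam W)
        (kp T' i) : F.Fib lam W) =
        fcst W (F.Phi lam) (kp T' i) := rfl
      rw [h3]
      exact ((hPt θ).evA_fcst _).symm
    have h5 : Γ.fn (gu W F lam (kp T') (pp T') (qq T') i : F.Fib lam W) θ =
        (hPt θ).evA (gu W F lam (kp T') (pp T') (qq T') i : F.Fib lam W) := rfl
    rw [h5, h4, h2 (qq T' i), h2 (pp T' i), ← map_mul, ← map_mul]
    exact congrArg (hPt θ).evA (gu_mul W F lam (kp T') (pp T') (qq T') i)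
  have hκc : ∀ i, σ (kp T' i) ≠ 0 := fun i => (map_ne_zero σ).2 (kp T' i).ne_zero
  refine hclose T' _ _ ht0 hgoodE (fun l θ => ?_) (fun l j θ => ?_)
  · obtain ⟨r, rfl⟩ := (esum s d).surjective l
    rcases r with i | i
    · rw [RmG_z_zero, congrFun (hzfn i) θ, hkzR]
      refine lt_of_le_of_lt ?_ (hδle T')
      have h1 := hZlog i θ
      have h2 := hΛlog θ
      have h3 : Real.log ‖Z i θ‖ / t - al i / k =
          ((Real.log ‖Z i θ‖ - al i * Real.log ‖Λ θ‖) +
            al i * (Real.log ‖Λ θ‖ - t / k)) / t := by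
        field_simp
        ring
      rw [h3, abs_div, abs_of_pos htpos, div_le_iff₀ htpos]
      refine (abs_add_le _ _).trans ?_
      rw [abs_mul]
      have h4 : |(al i : ℝ)| * |Real.log ‖Λ θ‖ - t / k| ≤ A * C2 :=
        mul_le_mul (hAi i) h2 (abs_nonneg _) (by linarith)
      have h5 : (A * C2 + δ0) / δ0 ≤ t := by linarith
      rw [div_le_iff₀ hδ0pos] at h5
      have h6 : t * δ0 ≤ 3 * (A * δ0) * t := by
        have : δ0 ≤ 3 * (A * δ0) := by linarith [mul_pos (lt_of_lt_of_le one_pos hA1) hδ0pos]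
        nlinarith
      linarith
    · rw [RmG_u_zero, sub_zero]
      refine lt_of_le_of_lt ?_ (hδle T')
      have h1 := hLlog (pp T' i) θ
      have h2 := hLlog (qq T' i) θ
      have h3 := hGS T' i
      have h4 : Real.log ‖Γ.fn (gent W F lam (kp T') (pp T') (qq T') (esum s d (Sum.inr i)) :
          F.Fib lam W) θ * MvPolynomial.eval₂ σ (X θ) (F.form (qq T' i))‖ =
          Real.log ‖σ (kp T' i) * MvPolynomial.eval₂ σ (X θ) (F.form (pp T' i))‖ :=
        congrArg (fun z : ℂ => Real.log ‖z‖) (congrFun (hufn i) θ)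
      rw [norm_mul, norm_mul, Real.log_mul
        (norm_ne_zero_iff.2 ((hgoodE _).ne_zero θ)) (norm_ne_zero_iff.2 ((hLg _).ne_zero θ)),
        Real.log_mul (norm_ne_zero_iff.2 (hκc i)) (norm_ne_zero_iff.2 ((hLg _).ne_zero θ))]
        at h4
      have h5 : Real.log ‖Γ.fn (gent W F lam (kp T') (pp T') (qq T') (esum s d (Sum.inr i)) :
          F.Fib lam W) θ‖ = Real.log ‖σ (kp T' i)‖ +
          Real.log ‖MvPolynomial.eval₂ σ (X θ) (F.form (pp T' i))‖ - Real.log ‖MvPolynomial.eval₂ σ (X θ) (F.form (qq T' i))‖ := by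
        linarith
      rw [h5, abs_div, abs_of_pos htpos, div_le_iff₀ htpos]
      have h6 : |Real.log ‖σ (kp T' i)‖ + Real.log ‖MvPolynomial.eval₂ σ (X θ) (F.form (pp T' i))‖ -
          Real.log ‖MvPolynomial.eval₂ σ (X θ) (F.form (qq T' i))‖| ≤ G + 2 * C1 := by
        have a1 := abs_le.1 h1
        have a2 := abs_le.1 h2
        have a3 := abs_le.1 h3
        rw [abs_le]
        constructor <;> linarith [a1.1, a1.2, a2.1, a2.2, a3.1, a3.2]
      have h7 : (G + 2 * C1) / δ0 ≤ t := by linarith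
      rw [div_le_iff₀ hδ0pos] at h7
      have h8 : t * δ0 ≤ 3 * (A * δ0) * t := by
        have : δ0 ≤ 3 * (A * δ0) := by linarith [mul_pos (lt_of_lt_of_le one_pos hA1) hδ0pos]
        nlinarith
      linarith
  · obtain ⟨r, rfl⟩ := (esum s d).surjective l
    rcases r with i | i
    · rw [RmG_z_succ, hzfn i]
      refine lt_of_le_of_lt ?_ (hδle T')
      have h1 := hZlw i j θ
      have h2 := hΛlw θ j
      have hite : ∀ (P : Prop) [Decidable P] (x : ℝ),
          ((if P then x else 0 : ℝ) : ℂ) = if P then (x : ℂ) else 0 := by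
        intro P _ x
        split_ifs <;> simp
      simp only [Complex.ofReal_add, Complex.ofReal_mul, Complex.ofReal_sum, hite,
        Complex.ofReal_natCast, Complex.ofReal_intCast]
      have e1 : lw (Z i) j θ - 2 * Real.pi * Complex.I *
          (al i * (∑ i', if j = Fin.natAdd s i' then (nu F.w μ i' : ℂ) else 0) +
            ∑ l, if j = Fin.castAdd (d + 1) l then (bdir v i0 l i : ℂ) else 0) =
          (lw (Z i) j θ - (al i * lw Λ j θ + 2 * Real.pi * Complex.I *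
            ∑ l, if j = Fin.castAdd (d + 1) l then (bdir v i0 l i : ℂ) else 0)) +
          al i * (lw Λ j θ - 2 * Real.pi * Complex.I *
            ∑ i, (if j = Fin.natAdd s i then (N i : ℂ) else 0)) := by
        rw [hN]
        ring
      rw [e1]
      refine (norm_add_le _ _).trans ?_
      rw [norm_mul, Complex.norm_intCast]
      have h4 : |(al i : ℝ)| * ‖lw Λ j θ - 2 * Real.pi * Complex.I *
            ∑ i, (if j = Fin.natAdd s i then (N i : ℂ) else 0)‖ ≤ A * δ0 :=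
        mul_le_mul (hAi i) h2 (norm_nonneg _) (by linarith)
      linarith
    · rw [RmG_u_succ]
      refine lt_of_le_of_lt ?_ (hδle T')
      have h1 := hLlw (pp T' i) θ j
      have h2 := hLlw (qq T' i) θ j
      have h3 := lw_mul (hgoodE (esum s d (Sum.inr i))) (hLg (qq T' i)) j θ
      rw [hufn i] at h3
      have h5 := lw_mul (good_const (d := s + (d + 1)) (hκc i)) (hLg (pp T' i)) j θ
      rw [lw_const, zero_add] at h5
      have h4 : lw (Γ.fn (gent W F lam (kp T') (pp T') (qq T') (esum s d (Sum.inr i)) :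
          F.Fib lam W)) j θ = lw (fun θ => MvPolynomial.eval₂ σ (X θ) (F.form (pp T' i))) j θ -
          lw (fun θ => MvPolynomial.eval₂ σ (X θ) (F.form (qq T' i))) j θ := by
        rw [eq_sub_iff_add_eq, ← h5]
        exact h3.symm
      have e1 : (((∑ i', if j = Fin.natAdd s i' then ((dot al v : ℤ) : ℝ) *
          ((μ (pp T' i) i' : ℝ) - μ (qq T' i) i') else 0 : ℝ)) : ℂ) =
          (∑ i', (if j = Fin.natAdd s i' then (((k * μ (pp T' i) i' : ℕ)) : ℂ) else 0)) -
          ∑ i', (if j = Fin.natAdd s i' then (((k * μ (qq T' i) i' : ℕ)) : ℂ)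
            else 0) := by
        rw [hkzR, ← Finset.sum_sub_distrib, Complex.ofReal_sum]
        refine Finset.sum_congr rfl fun i' _ => ?_
        split_ifs
        · push_cast
          ring
        · simp
      rw [h4, e1]
      have e2 : lw (fun θ => MvPolynomial.eval₂ σ (X θ) (F.form (pp T' i))) j θ -
          lw (fun θ => MvPolynomial.eval₂ σ (X θ) (F.form (qq T' i))) j θ - 2 * Real.pi * Complex.I *
          ((∑ i', (if j = Fin.natAdd s i' then (((k * μ (pp T' i) i' : ℕ)) : ℂ) else 0)) -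
          ∑ i', (if j = Fin.natAdd s i' then (((k * μ (qq T' i) i' : ℕ)) : ℂ)
            else 0)) =
          (lw (fun θ => MvPolynomial.eval₂ σ (X θ) (F.form (pp T' i))) j θ - 2 * Real.pi * Complex.I *
            ∑ i', (if j = Fin.natAdd s i' then (((k * μ (pp T' i) i' : ℕ)) : ℂ) else 0)) -
          (lw (fun θ => MvPolynomial.eval₂ σ (X θ) (F.form (qq T' i))) j θ - 2 * Real.pi * Complex.I *
            ∑ i', (if j = Fin.natAdd s i' then (((k * μ (qq T' i) i' : ℕ)) : ℂ)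
              else 0)) := by ring
      rw [e2]
      refine (norm_sub_le _ _).trans ?_
      linarith

/-- The tori and the regulators for large `λ`. -/
theorem exists_findep (hWint : Interior W) (hF : F.Admissible σ) :
    ∃ C : ℝ, 1 ≤ C ∧ ∀ lam : K, C ≤ ‖σ lam‖ → F.FIndep lam W σ := by
  classical
  have hch : ∀ T : F.Ix, Nonempty (Chart F σ (mu F T.1)) := by
    intro T
    obtain ⟨p, hp⟩ := hF.vertex T.1 T.2
    exact exists_chart hF.form_ne hp
  obtain ⟨al, v, hv, hpos, hmax⟩ := exists_vertex hWint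
  obtain ⟨i0, hi0⟩ : ∃ i0, v i0 ≠ 0 := by
    by_contra hcon
    push Not at hcon
    have h1 : dot al v = 0 := Finset.sum_eq_zero fun i _ => by rw [hcon i, mul_zero]
    omega
  set D0 : ℝ := (2 * Real.pi) ^ (s + (d + 1)) * ((zmat al v i0).det *
    ((dot al v : ℤ) : ℝ) ^ (d + 1)) with hD0
  have hD00 : D0 ≠ 0 := by
    refine mul_ne_zero (pow_ne_zero _ (by have := Real.pi_pos; positivity))
      (mul_ne_zero (det_zmat hpos hi0) (pow_ne_zero _ ?_))
    exact_mod_cast hpos.ne'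
  set M0 : Matrix F.Ix F.Ix ℝ := Matrix.of fun T T' =>
    D0 * lead F T.1 T'.1 (F.hi T'.1) with hM0
  have hM : M0.det ≠ 0 := by
    have h1 : M0 = D0 • (Matrix.of fun T T' : F.Ix => lead F T.1 T'.1 (F.hi T'.1)) := by
      ext T T'
      rfl
    rw [h1, Matrix.det_smul]
    refine mul_ne_zero (pow_ne_zero _ hD00) ?_
    refine det_ne_zero_of_tri (fun T : F.Ix => ∑ l, (T.1 l : ℕ)) _ (fun T => ?_)
      (fun T T' h => ?_)
    · rw [Matrix.of_apply]
      exact lead_same T.2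
    · rw [Matrix.of_apply] at h
      rcases lead_other T.2 T'.2 h with h1 | h1
      · exact Or.inl (Subtype.ext h1)
      · exact Or.inr h1
  obtain ⟨δ, hδ, hdet⟩ := det_ne_zero_near M0 hM
  have hex := fun T : F.Ix => by
    haveI : Nonempty F.Ix := ⟨T⟩
    exact exists_torusG (W := W) (hch T).some hv hpos hmax i0
      (fun T' : F.Ix => F.kap T'.1) (fun T' => T'.1) (fun T' => F.hi T'.1) (ε := δ / 2)
      (by linarith)
  choose Λ hΛ1 hΛ using hex
  set C : ℝ := ∑ T, |Λ T| + 2 with hC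
  have hsum : 0 ≤ ∑ T, |Λ T| := Finset.sum_nonneg fun J _ => abs_nonneg _
  have hΛC : ∀ T, Λ T ≤ C := by
    intro T
    have h1 := Finset.single_le_sum (f := fun T => |Λ T|) (fun T _ => abs_nonneg _)
      (Finset.mem_univ T)
    have h2 := le_abs_self (Λ T)
    have h3 : |Λ T| ≤ ∑ T, |Λ T| := h1
    linarith
  refine ⟨C, by linarith, fun lam hlam => ?_⟩
  choose Γ hΓ1 hΓ2 using fun T => hΛ T lam ((hΛC T).trans hlam)
  refine ⟨Γ, hΓ1, ?_⟩
  have hs : Real.log ‖σ lam‖ ≠ 0 := by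
    have : 0 < Real.log ‖σ lam‖ := Real.log_pos (by linarith)
    linarith
  set t : ℝ := Real.log ‖σ lam‖ with htdef
  have h1 : (Matrix.of fun T T' : F.Ix => (Γ T).reg (F.fsym lam W T'.1) / t).det ≠ 0 := by
    refine hdet _ fun T T' => ?_
    rw [hM0, Matrix.of_apply, Matrix.of_apply]
    have h3 := hΓ2 T T'
    rw [det_RmG] at h3
    have h4 : (2 * Real.pi) ^ (s + (d + 1)) * ((zmat al v i0).det *
        (((dot al v : ℤ) : ℝ) ^ (d + 1) * ldet (mu F T.1) T'.1 (F.hi T'.1))) =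
        D0 * lead F T.1 T'.1 (F.hi T'.1) := by
      have h5 : ldet (mu F T.1) T'.1 (F.hi T'.1) = lead F T.1 T'.1 (F.hi T'.1) := rfl
      rw [hD0, h5]
      ring
    rw [h4] at h3
    exact lt_of_le_of_lt h3 (show δ / 2 < δ by linarith)
  have h2 : (Matrix.of fun T T' : F.Ix => (Γ T).reg (F.fsym lam W T'.1)) =
      t • (Matrix.of fun T T' : F.Ix => (Γ T).reg (F.fsym lam W T'.1) / t) := by
    ext T T'
    rw [Matrix.smul_apply, Matrix.of_apply, Matrix.of_apply, smul_eq_mul]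
    field_simp
  rw [h2, Matrix.det_smul]
  exact mul_ne_zero (pow_ne_zero _ hs) h1

end main

end Pool.Agent.V7H64.BR
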