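import Pool.Agent.V7H64.BR.Def
import Pool.Agent.TH577.UA.Final
set_option autoImplicit false

/-!
The leading coefficients of the regulators of arrangements of hypersurfaces.
-/

namespace Pool.Agent.V7H64.BR

open Pool.Agent.TH826.GA (cm al al_T)

open Pool.Agent.TH577.UA (hi kap hi_spec le_hi le_hi_of_al kap_eq kap_ne sum_al det_update top le_top
  al_top top_T stp)

variable {K : Type*} [Field K] {d m : ℕ} {F : Arr K d m}

theorem thr_T {T : Fin (d + 1) → Fin (m + 1)} (hT : (F.mat T).det ≠ 0) (i : Fin (d + 1)) :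
    F.Thr T (T i) := by
  unfold Arr.Thr
  have h1 : ∀ l, F.al T (T i) l = if i = l then 1 else 0 := fun l => al_T (c := F.c) T hT i l
  simp only [h1]
  rw [Finset.sum_eq_single i]
  · rw [if_pos rfl, map_one, one_mul]
  · intro l _ hl
    rw [if_neg (Ne.symm hl), map_zero, zero_mul]
  · intro h
    exact absurd (Finset.mem_univ i) h

theorem exists_al_of_thr (hne : ∀ e, F.form e ≠ 0) {T : Fin (d + 1) → Fin (m + 1)}
    {e : Fin (m + 1)} (h : F.Thr T e) : ∃ i, al F.c T e i ≠ 0 := by
  by_contra hcon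
  push Not at hcon
  apply hne e
  have h1 : F.form e = ∑ l, MvPolynomial.C (al F.c T e l) * F.form (T l) := h
  rw [h1]
  refine Finset.sum_eq_zero fun l _ => ?_
  rw [hcon l, map_zero, zero_mul]

/-- the exponents of the form `e` in the chart at the vertex of `T` -/
noncomputable def mu (F : Arr K d m) (T : Fin (d + 1) → Fin (m + 1)) (e : Fin (m + 1)) :
    Fin (d + 1) → ℕ :=
  open Classical in if F.Thr T e then stp (top F.c T e) else 0

/-- the leading coefficients of the regulators -/
noncomputable def lead (F : Arr K d m) (T p q : Fin (d + 1) → Fin (m + 1)) : ℝ :=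
  (Matrix.of fun l j => (mu F T (p l) j : ℝ) - mu F T (q l) j).det

theorem lt_hi {T : Fin (d + 1) → Fin (m + 1)} (h : F.Nbc T) (i : Fin (d + 1)) :
    T i < F.hi T i := by
  obtain ⟨e, h1, h2⟩ := h.2.2.1 i
  exact h1.trans_le (le_hi (c := F.c) h2)

theorem le_T_top {T : Fin (d + 1) → Fin (m + 1)} (h : F.Nbc T) {e : Fin (m + 1)}
    (hbe : F.Thr T e) : e ≤ T (top F.c T e) := by
  by_cases h1 : ∃ j, T j = e
  · obtain ⟨j, rfl⟩ := h1
    rw [top_T (c := F.c) h.2.1]
  · push Not at h1
    obtain ⟨i, h2, h3⟩ := h.2.2.2 e h1 hbe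
    have h5 : (F.mat (Function.update T i e)).det = al F.c T e i * (F.mat T).det :=
      det_update (c := F.c) h.2.1 i e
    rw [h5] at h3
    have h4 : al F.c T e i ≠ 0 := left_ne_zero_of_mul h3
    exact h2.le.trans (h.1.monotone (le_top h4))

/-- the matrix of exponents -/
noncomputable def emat (F : Arr K d m) (T e : Fin (d + 1) → Fin (m + 1)) :
    Matrix (Fin (d + 1)) (Fin (d + 1)) ℝ :=
  Matrix.of fun l j => (mu F T (e l) j : ℝ)

theorem lead_expand (T p q : Fin (d + 1) → Fin (m + 1)) :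
    lead F T p q = ∑ s : Finset (Fin (d + 1)), (∏ l, if l ∈ s then (1 : ℝ) else -1) *
      (emat F T fun l => if l ∈ s then p l else q l).det := by
  classical
  set A : Fin (d + 1) → Fin (d + 1) → ℝ := fun l j => (mu F T (p l) j : ℝ) with hA
  set B : Fin (d + 1) → Fin (d + 1) → ℝ := fun l j => -(mu F T (q l) j : ℝ) with hB
  have h := (Matrix.detRowAlternating (n := Fin (d + 1)) (R := ℝ)).toMultilinearMap.map_add_univ
    A B
  have h1 : lead F T p q =
      (Matrix.detRowAlternating (n := Fin (d + 1)) (R := ℝ)).toMultilinearMap (A + B) := by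
    unfold lead
    show Matrix.det _ = Matrix.det (Matrix.of (A + B))
    congr 1
  rw [h1, h]
  refine Finset.sum_congr rfl fun s _ => ?_
  show Matrix.det (Matrix.of (s.piecewise A B)) = _
  rw [← Matrix.det_mul_column]
  congr 1
  ext l j
  simp only [Matrix.of_apply, emat]
  by_cases hl : l ∈ s
  · rw [Finset.piecewise_eq_of_mem _ _ _ hl, if_pos hl, if_pos hl, one_mul]
  · rw [Finset.piecewise_eq_of_notMem _ _ _ hl, if_neg hl, if_neg hl, neg_one_mul]

theorem emat_ne {T e : Fin (d + 1) → Fin (m + 1)} (h : (emat F T e).det ≠ 0) :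
    (∀ l, F.Thr T (e l)) ∧ Function.Injective fun l => top F.c T (e l) := by
  have h1 : ∀ l, F.Thr T (e l) := by
    intro l
    by_contra hl
    apply h
    refine Matrix.det_eq_zero_of_row_eq_zero l fun j => ?_
    unfold emat mu
    rw [Matrix.of_apply, if_neg hl]
    simp
  refine ⟨h1, fun k l hkl => ?_⟩
  by_contra hne
  apply h
  refine Matrix.det_zero_of_row_eq hne ?_
  funext j
  unfold emat mu
  rw [Matrix.of_apply, Matrix.of_apply, if_pos (h1 k), if_pos (h1 l)]
  have h2 : top F.c T (e k) = top F.c T (e l) := hkl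
  rw [h2]

theorem sum_le_of {T : Fin (d + 1) → Fin (m + 1)} (hT : F.Nbc T)
    {e : Fin (d + 1) → Fin (m + 1)} (h : (emat F T e).det ≠ 0) :
    ∑ l, (e l : ℕ) ≤ ∑ l, (T l : ℕ) := by
  obtain ⟨h1, h2⟩ := emat_ne h
  have h3 : ∑ l, (T (top F.c T (e l)) : ℕ) = ∑ l, (T l : ℕ) :=
    (Function.Injective.bijective_of_finite h2).sum_comp fun l => (T l : ℕ)
  rw [← h3]
  exact Finset.sum_le_sum fun l _ => le_T_top hT (h1 l)

theorem mem_of_sum {T : Fin (d + 1) → Fin (m + 1)} (hT : F.Nbc T)
    {e : Fin (d + 1) → Fin (m + 1)} (h : (emat F T e).det ≠ 0)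
    (hs : ∑ l, (T l : ℕ) ≤ ∑ l, (e l : ℕ)) (l : Fin (d + 1)) : e l = T (top F.c T (e l)) := by
  obtain ⟨h1, h2⟩ := emat_ne h
  have h3 : ∑ l, (T (top F.c T (e l)) : ℕ) = ∑ l, (T l : ℕ) :=
    (Function.Injective.bijective_of_finite h2).sum_comp fun l => (T l : ℕ)
  refine le_antisymm (le_T_top hT (h1 l)) ?_
  by_contra h4
  push Not at h4
  have h5 : ∑ l, (e l : ℕ) < ∑ l, (T (top F.c T (e l)) : ℕ) :=
    Finset.sum_lt_sum (fun l _ => le_T_top hT (h1 l)) ⟨l, Finset.mem_univ l, h4⟩
  omega

theorem lead_other {T T' : Fin (d + 1) → Fin (m + 1)} (hT : F.Nbc T) (hT' : F.Nbc T')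
    (h : lead F T T' (F.hi T') ≠ 0) :
    T = T' ∨ ∑ l, (T' l : ℕ) < ∑ l, (T l : ℕ) := by
  classical
  rw [lead_expand] at h
  obtain ⟨s, -, hs⟩ := Finset.exists_ne_zero_of_sum_ne_zero h
  have hs' := right_ne_zero_of_mul hs
  set e : Fin (d + 1) → Fin (m + 1) := fun l => if l ∈ s then T' l else F.hi T' l with he
  have hle : ∀ l, (T' l : ℕ) ≤ e l := by
    intro l
    simp only [he]
    split_ifs
    · exact le_rfl
    · exact (lt_hi hT' l).le
  have h1 := sum_le_of hT hs'
  have h2 : ∑ l, (T' l : ℕ) ≤ ∑ l, (e l : ℕ) := Finset.sum_le_sum fun l _ => hle l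
  rcases (h2.trans h1).lt_or_eq with h3 | h3
  · exact Or.inr h3
  · left
    have h4 : ∀ l, e l = T' l := by
      intro l
      apply Fin.ext
      by_contra hne
      have h5 : ∑ l, (T' l : ℕ) < ∑ l, (e l : ℕ) :=
        Finset.sum_lt_sum (fun l _ => hle l) ⟨l, Finset.mem_univ l,
          lt_of_le_of_ne (hle l) (Ne.symm hne)⟩
      omega
    have h5 : ∀ l, ∃ k, T k = T' l := by
      intro l
      refine ⟨top F.c T (e l), ?_⟩
      rw [← mem_of_sum hT hs' (by omega) l, h4]
    choose π hπ using h5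
    have hπi : Function.Injective π := by
      intro k l hkl
      apply hT'.1.injective
      rw [← hπ k, ← hπ l, hkl]
    refine (hT.1.range_inj hT'.1).1 ?_
    apply Set.Subset.antisymm
    · rintro _ ⟨k, rfl⟩
      obtain ⟨l, rfl⟩ := (Finite.injective_iff_surjective.1 hπi) k
      exact ⟨l, (hπ l).symm⟩
    · rintro _ ⟨l, rfl⟩
      exact ⟨π l, hπ l⟩

theorem mu_T {T : Fin (d + 1) → Fin (m + 1)} (hT : (F.mat T).det ≠ 0) (i : Fin (d + 1)) :
    mu F T (T i) = stp i := by
  unfold mu
  rw [if_pos (thr_T hT i), top_T (c := F.c) hT]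

theorem lead_same {T : Fin (d + 1) → Fin (m + 1)} (hT : F.Nbc T) :
    lead F T T (F.hi T) ≠ 0 := by
  classical
  rw [lead_expand, Finset.sum_eq_single Finset.univ]
  · have h1 : (emat F T fun l => if l ∈ Finset.univ then T l else F.hi T l).det = 1 := by
      rw [Matrix.det_of_isUpperTriangular]
      · refine Finset.prod_eq_one fun i _ => ?_
        unfold emat
        simp only [Finset.mem_univ, if_true, Matrix.of_apply]
        rw [mu_T hT.2.1]
        unfold stp
        rw [if_pos le_rfl]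
        simp
      · intro i j hij
        have hij' : j < i := hij
        unfold emat
        simp only [Finset.mem_univ, if_true, Matrix.of_apply]
        rw [mu_T hT.2.1]
        unfold stp
        rw [if_neg (not_le.2 hij')]
        simp
    rw [h1, mul_one]
    simp
  · intro s _ hs
    by_contra hne
    have hs' := right_ne_zero_of_mul hne
    set e : Fin (d + 1) → Fin (m + 1) := fun l => if l ∈ s then T l else F.hi T l with he
    have h1 := sum_le_of hT hs'
    obtain ⟨l0, hl0⟩ : ∃ l, l ∉ s := by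
      by_contra hcon
      push Not at hcon
      exact hs (Finset.eq_univ_iff_forall.2 hcon)
    have hle : ∀ l, (T l : ℕ) ≤ e l := by
      intro l
      simp only [he]
      split_ifs
      · exact le_rfl
      · exact (lt_hi hT l).le
    have h2 : ∑ l, (T l : ℕ) < ∑ l, (e l : ℕ) := by
      refine Finset.sum_lt_sum (fun l _ => hle l) ⟨l0, Finset.mem_univ l0, ?_⟩
      simp only [he, if_neg hl0]
      exact lt_hi hT l0
    omega
  · intro h
    exact absurd (Finset.mem_univ _) h

end Pool.Agent.V7H64.BR
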