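import Pool.Agent.N65.TL.Defs
set_option autoImplicit false

/-!
Arrangements of the hypersurfaces `F_e = ∑_k c_{e,k} P_k + q_e`, whose leading parts are pulled back
from an arrangement of hyperplanes by weighted homogeneous polynomials `P_0, ..., P_d`: definitions.
-/

namespace Pool.Agent.V7H64.BR

open Pool.Agent.TH826.MK (KQ symb Unramified Torus)

open Pool.Agent.N65.TL (LP FOpen fcst fz fdiv esum)

section hyp

variable {K : Type*} [Field K] {d : ℕ}

/-- The coordinate ring of the affine hypersurface `Φ(x) = 1`. -/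
def HRing (Φ : MvPolynomial (Fin (d + 1)) K) : Type _ :=
  MvPolynomial (Fin (d + 1)) K ⧸ Ideal.span {Φ - 1}

noncomputable instance (Φ : MvPolynomial (Fin (d + 1)) K) : CommRing (HRing Φ) :=
  Ideal.Quotient.commRing (Ideal.span {Φ - 1})

variable (Φ : MvPolynomial (Fin (d + 1)) K)

/-- The polynomials as functions on the hypersurface. -/
noncomputable def hx : MvPolynomial (Fin (d + 1)) K →+* HRing Φ :=
  Ideal.Quotient.mk (Ideal.span {Φ - 1})

/-- The constants as functions on the hypersurface. -/
noncomputable def hcst : K →+* HRing Φ := (hx Φ).comp MvPolynomial.C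

theorem hx_Phi : hx Φ Φ = 1 := by
  have h : hx Φ (Φ - 1) = 0 :=
    Ideal.Quotient.eq_zero_iff_mem.2 (Ideal.subset_span (Set.mem_singleton (Φ - 1)))
  rw [map_sub, map_one, sub_eq_zero] at h
  exact h

variable {Φ} in
/-- The divisors of `Φ` are units on the hypersurface. -/
noncomputable def hdiv {p : MvPolynomial (Fin (d + 1)) K} (h : p ∣ Φ) : (HRing Φ)ˣ :=
  (isUnit_of_dvd_one ((map_dvd (hx Φ) h).trans (dvd_of_eq (hx_Phi Φ)))).unit

end hyp

/-- The data of an arrangement of hypersurfaces: polynomials `F_e = ∑_k c_{e,k} P_k + q_e` for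
`0 ≤ e ≤ m` in the variables `x_0, ..., x_d`, exponents `w_e` and a polynomial `g`. -/
structure Arr (K : Type*) [Field K] (d m : ℕ) where
  /-- the weights of the variables -/
  a : Fin (d + 1) → ℕ
  /-- the weights of the polynomials `P_k` -/
  M : Fin (d + 1) → ℕ
  /-- the weights of the polynomials `F_e` -/
  n : Fin (m + 1) → ℕ
  /-- the polynomials `P_k` -/
  P : Fin (d + 1) → MvPolynomial (Fin (d + 1)) K
  /-- the coefficients of the leading parts of the `F_e` -/
  c : Fin (m + 1) → Fin (d + 1) → K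
  /-- the lower terms of the `F_e` -/
  q : Fin (m + 1) → MvPolynomial (Fin (d + 1)) K
  /-- the exponents -/
  w : Fin (m + 1) → ℕ
  /-- the polynomial `g` -/
  g : MvPolynomial (Fin (d + 1)) K

variable {K : Type*} [Field K] {s d m : ℕ} (F : Arr K d m)

/-- The polynomial `F_e = ∑_k c_{e,k} P_k + q_e`. -/
noncomputable def Arr.form (e : Fin (m + 1)) : MvPolynomial (Fin (d + 1)) K :=
  ∑ k, MvPolynomial.C (F.c e k) * F.P k + F.q e

/-- The matrix of the coefficients `c_{T_i,k}` of the leading parts of `F_{T_0}, ..., F_{T_d}`. -/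
def Arr.mat (T : Fin (d + 1) → Fin (m + 1)) : Matrix (Fin (d + 1)) (Fin (d + 1)) K :=
  Matrix.of fun i k => F.c (T i) k

/-- The product of all nonzero determinants of the matrices of `T_0, ..., T_d`. -/
noncomputable def Arr.Del : K :=
  open Classical in
    ∏ T : Fin (d + 1) → Fin (m + 1), if (F.mat T).det = 0 then 1 else (F.mat T).det

/-- The exponent `(2 m + 4) (deg g + ∑_e (w_e + 1) n_e) + 1` (weighted degrees). -/
noncomputable def Arr.Bex : ℕ :=
  (2 * m + 4) * (F.g.weightedTotalDegree F.a + ∑ e, (F.w e + 1) * F.n e) + 1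

/-- The coefficient `α_l` of the relation `c_e = ∑_l α_l c_{T_l}`, if the determinant of the matrix
of `T` is not zero. -/
noncomputable def Arr.al (T : Fin (d + 1) → Fin (m + 1)) (e : Fin (m + 1)) (l : Fin (d + 1)) : K :=
  ∑ k, F.c e k * (F.mat T)⁻¹ k l

/-- The polynomial `F_e` is the linear combination of `F_{T_0}, ..., F_{T_d}` with the same
coefficients as its leading part. -/
def Arr.Thr (T : Fin (d + 1) → Fin (m + 1)) (e : Fin (m + 1)) : Prop :=
  F.form e = ∑ l, MvPolynomial.C (F.al T e l) * F.form (T l)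

/-- The indices `T_0 < ... < T_d` with nonzero determinant, such that every `T_i` can be replaced by
a later index, and every other index `e`, such that `F_e` is a linear combination of the `F_{T_l}`,
can replace a later index `T_i`. -/
def Arr.Nbc (T : Fin (d + 1) → Fin (m + 1)) : Prop :=
  StrictMono T ∧ (F.mat T).det ≠ 0 ∧
  (∀ i, ∃ e, T i < e ∧ (F.mat (Function.update T i e)).det ≠ 0) ∧
  ∀ e, (∀ j, T j ≠ e) → F.Thr T e →
    ∃ i, e < T i ∧ (F.mat (Function.update T i e)).det ≠ 0

/-- The set of these indices. -/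
def Arr.Ix : Type := {T : Fin (d + 1) → Fin (m + 1) // F.Nbc T}

noncomputable instance : Fintype F.Ix :=
  @Subtype.fintype _ _ (Classical.decPred _) _

noncomputable instance : DecidableEq F.Ix := Classical.decEq _

/-- The point `p` is a transversal common zero of `F_{T_0}, ..., F_{T_d}` (over `σ`), all `F_e` which
vanish at `p` are linear combinations of the `F_{T_l}`, and `g` does not vanish at `p`. -/
structure Arr.Vertex (σ : K →+* ℂ) (T : Fin (d + 1) → Fin (m + 1)) (p : Fin (d + 1) → ℂ) :
    Prop where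
  /-- common zero -/
  zero : ∀ i, MvPolynomial.eval₂ σ p (F.form (T i)) = 0
  /-- transversality -/
  jac : (Matrix.of fun i j : Fin (d + 1) =>
    MvPolynomial.eval₂ σ p (MvPolynomial.pderiv j (F.form (T i)))).det ≠ 0
  /-- the other forms -/
  thr : ∀ e, MvPolynomial.eval₂ σ p (F.form e) = 0 → F.Thr T e
  /-- the polynomial `g` -/
  g_ne : MvPolynomial.eval₂ σ p F.g ≠ 0

/-- The conditions on the arrangement. -/
structure Arr.Admissible (σ : K →+* ℂ) : Prop where
  /-- positive weights -/
  a_pos : ∀ j, 0 < F.a j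
  /-- the `P_k` are weighted homogeneous -/
  P_hom : ∀ k, (F.P k).IsWeightedHomogeneous F.a (F.M k)
  /-- the leading part of `F_e` is a combination of the `P_k` of the weight `n_e` -/
  c_deg : ∀ e k, F.c e k ≠ 0 → F.M k = F.n e
  /-- the monomials of `q_e` have a smaller weight -/
  q_deg : ∀ e, ∀ i ∈ (F.q e).support, Finsupp.weight F.a i < F.n e
  /-- integral coefficients -/
  P_int : ∀ k i, IsIntegral ℤ ((F.P k).coeff i)
  /-- integral coefficients -/
  c_int : ∀ e k, IsIntegral ℤ (F.c e k)
  /-- integral coefficients -/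
  q_int : ∀ e i, IsIntegral ℤ ((F.q e).coeff i)
  /-- integral coefficients -/
  g_int : ∀ i, IsIntegral ℤ (F.g.coeff i)
  /-- the `P_k` have no common zero besides the origin -/
  infty : ∀ x : Fin (d + 1) → ℂ, (∀ k, MvPolynomial.eval₂ σ x (F.P k) = 0) → x = 0
  /-- no `F_e` is zero -/
  form_ne : ∀ e, F.form e ≠ 0
  /-- vertices -/
  vertex : ∀ T, F.Nbc T → ∃ p, F.Vertex σ T p

/-- `R` is an integer, and `R x_j ^ N` is a combination of the `P_k` with integral coefficients, for
all `j` and suitable `N`. -/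
def Arr.Res (R : K) : Prop :=
  IsIntegral ℤ R ∧ R ≠ 0 ∧ ∀ j, ∃ (N : ℕ) (b : Fin (d + 1) → MvPolynomial (Fin (d + 1)) K),
    (∀ k i, IsIntegral ℤ ((b k).coeff i)) ∧
    MvPolynomial.C R * MvPolynomial.X j ^ N = ∑ k, b k * F.P k

variable (lam : K)

/-- The polynomial `Φ = λ g ∏_e F_e ^ (w_e + 1)`. -/
noncomputable def Arr.Phi : MvPolynomial (Fin (d + 1)) K :=
  MvPolynomial.C lam * (F.g * ∏ e, F.form e ^ (F.w e + 1))

theorem Arr.form_dvd (e : Fin (m + 1)) : F.form e ∣ F.Phi lam :=
  (dvd_pow_self _ (Nat.succ_ne_zero (F.w e))).trans (Dvd.dvd.mul_left (Dvd.dvd.mul_left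
    (Finset.dvd_prod_of_mem (fun e => F.form e ^ (F.w e + 1)) (Finset.mem_univ e)) _) _)

/-- The largest index `h_i` by which `T_i` can be replaced, such that the determinant of the matrix
of `T` stays different from zero. -/
noncomputable def Arr.hi (T : Fin (d + 1) → Fin (m + 1)) (i : Fin (d + 1)) : Fin (m + 1) :=
  open Classical in
    (Finset.univ.filter fun e => (F.mat (Function.update T i e)).det ≠ 0).sup id

/-- The quotient of the determinants of `T` with and without the replacement of `T_i` by `h_i`, as a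
unit. -/
noncomputable def Arr.kap (T : Fin (d + 1) → Fin (m + 1)) (i : Fin (d + 1)) : Kˣ :=
  open Classical in if h : (F.mat (Function.update T i (F.hi T i))).det / (F.mat T).det = 0 then 1
    else Units.mk0 _ h

section hypersurface

/-- The coordinate ring of the affine hypersurface `λ g ∏_e F_e ^ (w_e + 1) = 1`. -/
abbrev Arr.Hyp : Type _ := HRing (F.Phi lam)

/-- The units `u_i = κ_i F_{T i} / F_{h i}` of the coordinate ring. -/
noncomputable def Arr.u (T : Fin (d + 1) → Fin (m + 1)) (i : Fin (d + 1)) : (F.Hyp lam)ˣ :=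
  Units.map (hcst (F.Phi lam) : K →* F.Hyp lam) (F.kap T i) *
    (hdiv (F.form_dvd lam (T i)) / hdiv (F.form_dvd lam (F.hi T i)))

/-- The symbol `{u_0, ..., u_d}` of `T`. -/
noncomputable def Arr.sym (T : Fin (d + 1) → Fin (m + 1)) : KQ (F.Hyp lam) (d + 1) :=
  symb (F.u lam T)

/-- The symbols of all `T` with nonzero determinant have unramified images in the Milnor K-theory of
all fields `L` with a homomorphism from the coordinate ring. -/
def Arr.Unram.{u, v} {K : Type u} [Field K] {d m : ℕ} (F : Arr K d m) (lam : K) : Prop :=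
  ∀ (L : Type v) [Field L] (f : F.Hyp lam →+* L) (T : Fin (d + 1) → Fin (m + 1)),
    (F.mat T).det ≠ 0 → KQ.map _ f (F.sym lam T) ∈ Unramified L _

/-- The hypersurface is smooth: the gradient does not vanish at the complex points over `σ`. -/
def Arr.Smooth (σ : K →+* ℂ) : Prop :=
  ∀ x : Fin (d + 1) → ℂ, MvPolynomial.eval₂ σ x (F.Phi lam) = 1 →
    ∃ j, MvPolynomial.eval₂ σ x (MvPolynomial.pderiv j (F.Phi lam)) ≠ 0

/-- There are tori `Γ_T` of dimension `d` in the complex points over `σ`, for `T ∈ Ix`, such that the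
determinant of the regulators of the symbols of the `T' ∈ Ix` on the `Γ_T` does not vanish. -/
def Arr.Indep (σ : K →+* ℂ) : Prop :=
  ∃ Γ : F.Ix → Torus (F.Hyp lam) d,
    (∀ T θ (x : K), (Γ T).e θ (hcst (F.Phi lam) x) = σ x) ∧
    (Matrix.of fun T T' : F.Ix => (Γ T).reg (F.sym lam T'.1)).det ≠ 0

end hypersurface

section fibration

variable (W : LP K (s + 1))

/-- The coordinate ring of the open part `Φ ≠ 0` of the hypersurface `W(z) = Φ(x)`, `z_i ≠ 0`, for
`Φ = λ g ∏_e F_e ^ (w_e + 1)`. -/
abbrev Arr.Fib : Type _ := FOpen W (F.Phi lam)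

/-- The units `u_i = κ_i F_{T i} / F_{h i}` of the coordinate ring. -/
noncomputable def Arr.fu (T : Fin (d + 1) → Fin (m + 1)) (i : Fin (d + 1)) : (F.Fib lam W)ˣ :=
  Units.map (fcst W (F.Phi lam) : K →* F.Fib lam W) (F.kap T i) *
    (fdiv W (F.form_dvd lam (T i)) / fdiv W (F.form_dvd lam (F.hi T i)))

/-- The symbol `{z_0, ..., z_s, u_0, ..., u_d}` of `T`. -/
noncomputable def Arr.fsym (T : Fin (d + 1) → Fin (m + 1)) :
    KQ (F.Fib lam W) (s + (d + 1) + 1) :=
  symb fun l => Sum.elim (fz W (F.Phi lam)) (F.fu lam W T) ((esum s d).symm l)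

/-- The symbols of all `T` with nonzero determinant have unramified images in the Milnor K-theory of
all fields `L` with a homomorphism from the coordinate ring of the open part. -/
def Arr.FUnram.{u, v} {K : Type u} [Field K] {s d m : ℕ} (F : Arr K d m) (lam : K)
    (W : LP K (s + 1)) : Prop :=
  ∀ (L : Type v) [Field L] (f : F.Fib lam W →+* L) (T : Fin (d + 1) → Fin (m + 1)),
    (F.mat T).det ≠ 0 → KQ.map _ f (F.fsym lam W T) ∈ Unramified L _

/-- There are tori `Γ_T` of dimension `s + d + 1` in the complex points over `σ` of the open part,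
for `T ∈ Ix`, such that the determinant of the regulators of the symbols of the `T' ∈ Ix` on the
`Γ_T` does not vanish. -/
def Arr.FIndep (σ : K →+* ℂ) : Prop :=
  ∃ Γ : F.Ix → Torus (F.Fib lam W) (s + (d + 1)),
    (∀ T θ (x : K), (Γ T).e θ (fcst W (F.Phi lam) x) = σ x) ∧
    (Matrix.of fun T T' : F.Ix => (Γ T).reg (F.fsym lam W T'.1)).det ≠ 0

end fibration

end Pool.Agent.V7H64.BR
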