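import Pool.Agent.V7H64.BR.TorA
import Pool.Agent.Y797.GC.Sard
set_option autoImplicit false

/-!
Polynomials `P_0, ..., P_d` without common zeros, and smoothness.
-/

namespace Pool.Agent.V7H64.BR

open Pool.Agent.TH826.MK

section res

variable {K : Type*} [Field K] [NumberField K] {d m : ℕ} {F : Arr K d m} {σ : K →+* ℂ}

/-- If the `P_k` have no common zero besides the origin, then the powers of the variables are
combinations of the `P_k` up to integers. -/
theorem exists_res
    (hinf : ∀ x : Fin (d + 1) → ℂ, (∀ k, MvPolynomial.eval₂ σ x (F.P k) = 0) → x = 0) :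
    ∃ R, F.Res R := by
  classical
  let _ : Algebra K ℂ := σ.toAlgebra
  have hae : ∀ (x : Fin (d + 1) → ℂ) (p : MvPolynomial (Fin (d + 1)) K),
      MvPolynomial.aeval x p = MvPolynomial.eval₂ σ x p := fun _ _ => rfl
  set I : Ideal (MvPolynomial (Fin (d + 1)) K) := Ideal.span (Set.range F.P) with hI
  have hX : ∀ j, ∃ N : ℕ, (MvPolynomial.X j : MvPolynomial (Fin (d + 1)) K) ^ N ∈ I := by
    intro j
    have h1 : (MvPolynomial.X j : MvPolynomial (Fin (d + 1)) K) ∈
        MvPolynomial.vanishingIdeal K (MvPolynomial.zeroLocus ℂ I) := by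
      rw [MvPolynomial.mem_vanishingIdeal_iff]
      intro x hx
      have h2 : x = 0 := by
        refine hinf x fun k => ?_
        rw [← hae]
        exact hx (F.P k) (Ideal.subset_span ⟨k, rfl⟩)
      rw [h2, MvPolynomial.aeval_X]
      rfl
    rw [MvPolynomial.vanishingIdeal_zeroLocus_eq_radical] at h1
    exact h1
  have hb : ∀ j, ∃ (N : ℕ) (b : Fin (d + 1) → MvPolynomial (Fin (d + 1)) K),
      MvPolynomial.X j ^ N = ∑ k, b k * F.P k := by
    intro j
    obtain ⟨N, hN⟩ := hX j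
    obtain ⟨b, hb⟩ := (Ideal.mem_span_range_iff_exists_fun).1 hN
    exact ⟨N, b, hb.symm⟩
  choose N b hb using hb
  set S : Finset K := Finset.univ.biUnion fun j => Finset.univ.biUnion fun k =>
    (b j k).support.image fun i => (b j k).coeff i with hS
  have halg : Algebra.IsAlgebraic ℤ K :=
    (IsFractionRing.comap_isAlgebraic_iff (A := ℤ) (K := ℚ) (C := K)).2 inferInstance
  obtain ⟨y, hy, hint⟩ := Algebra.IsAlgebraic.exists_integral_multiples ℤ S
  have hyR : ((y : ℤ) : K) ≠ 0 := by exact_mod_cast hy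
  refine ⟨((y : ℤ) : K), isIntegral_intCast y, hyR, fun j => ⟨N j, fun k =>
    MvPolynomial.C ((y : ℤ) : K) * b j k, fun k i => ?_, ?_⟩⟩
  · rw [MvPolynomial.coeff_C_mul]
    by_cases h0 : (b j k).coeff i = 0
    · rw [h0, mul_zero]
      exact isIntegral_zero
    · have h1 := hint ((b j k).coeff i) (by
        rw [hS]
        refine Finset.mem_biUnion.2 ⟨j, Finset.mem_univ _, Finset.mem_biUnion.2
          ⟨k, Finset.mem_univ _, Finset.mem_image.2 ⟨i, MvPolynomial.mem_support_iff.2 h0, rfl⟩⟩⟩)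
      rwa [zsmul_eq_mul] at h1
  · rw [hb j, Finset.mul_sum]
    exact Finset.sum_congr rfl fun k _ => (mul_assoc _ _ _).symm

end res

section smooth

variable {K : Type*} [Field K] {d m : ℕ} (F : Arr K d m) (σ : K →+* ℂ)

/-- For large `λ` the hypersurface is smooth. -/
theorem exists_smooth : ∃ C : ℝ, 1 ≤ C ∧ ∀ lam : K, C ≤ ‖σ lam‖ → F.Smooth lam σ := by
  set G : MvPolynomial (Fin (d + 1)) K := F.g * ∏ e, F.form e ^ (F.w e + 1) with hG
  obtain ⟨ε, hε, h⟩ := Pool.Agent.Y797.GC.exists_level (MvPolynomial.map σ G)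
  have hC : 0 < 1 / ε := by positivity
  refine ⟨1 / ε + 1, by linarith, fun lam hlam x hx => ?_⟩
  have hln : 0 < ‖σ lam‖ := by linarith
  have hl0 : σ lam ≠ 0 := norm_pos_iff.1 hln
  have hPhi : F.Phi lam = MvPolynomial.C lam * G := rfl
  have h1 : MvPolynomial.eval x (MvPolynomial.map σ G) = (σ lam)⁻¹ := by
    rw [MvPolynomial.eval_map]
    rw [hPhi, MvPolynomial.eval₂_mul, MvPolynomial.eval₂_C] at hx
    exact eq_inv_of_mul_eq_one_right hx
  have h2 : ‖(σ lam)⁻¹‖ < ε := by
    rw [norm_inv, inv_lt_comm₀ hln hε, ← one_div]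
    linarith
  obtain ⟨i, hi⟩ := h _ (inv_ne_zero hl0) h2 x h1
  refine ⟨i, ?_⟩
  rw [hPhi, MvPolynomial.pderiv_C_mul, MvPolynomial.eval₂_mul, MvPolynomial.eval₂_C]
  refine mul_ne_zero hl0 ?_
  rw [MvPolynomial.pderiv_map, MvPolynomial.eval_map] at hi
  exact hi

end smooth

end Pool.Agent.V7H64.BR
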