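import Pool.Agent.V7H64.BR.Val
set_option autoImplicit false

/-!
Points at infinity of arrangements of hypersurfaces.
-/

namespace Pool.Agent.V7H64.BR

open scoped WithZero

open Pool.Agent.TH826.MK

open Pool.Agent.TH826.GA (cm al al_T)

open Pool.Agent.TH577.UA (hi kap hi_spec le_hi_of_al kap_eq kap_ne sum_al)

open Pool.Agent.N65.TU (Del Del_ne Del_int Del_inv Del_al Del_kap_inv Del_div det_int val_le_exp
  exists_n all_one mem_unitPart_of_block')

section rel

variable {K : Type*} [Field K] {d m : ℕ} (F : Arr K d m)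

theorem P_eq {T : Fin (d + 1) → Fin (m + 1)} (hT : (F.mat T).det ≠ 0) (k : Fin (d + 1)) :
    F.P k = ∑ i, MvPolynomial.C ((F.mat T)⁻¹ k i) * (F.form (T i) - F.q (T i)) := by
  classical
  have h1 : ∀ i, F.form (T i) - F.q (T i) = ∑ l, MvPolynomial.C (F.mat T i l) * F.P l := by
    intro i
    unfold Arr.form
    rw [add_sub_cancel_right]
    rfl
  simp only [h1, Finset.mul_sum, ← mul_assoc, ← MvPolynomial.C_mul]
  rw [Finset.sum_comm]
  simp only [← Finset.sum_mul, ← map_sum]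
  have h2 : ∀ l, ∑ i, (F.mat T)⁻¹ k i * F.mat T i l = if k = l then 1 else 0 := by
    intro l
    have h := congrFun (congrFun (Matrix.nonsing_inv_mul (F.mat T)
      (isUnit_iff_ne_zero.2 hT)) k) l
    rw [Matrix.mul_apply, Matrix.one_apply] at h
    exact h
  simp only [h2]
  rw [Finset.sum_eq_single k]
  · rw [if_pos rfl, map_one, one_mul]
  · intro l _ hl
    rw [if_neg (Ne.symm hl), map_zero, zero_mul]
  · intro h
    exact absurd (Finset.mem_univ k) h

theorem form_eq {T : Fin (d + 1) → Fin (m + 1)} (hT : (F.mat T).det ≠ 0) (e : Fin (m + 1)) :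
    F.form e = ∑ l, MvPolynomial.C (F.al T e l) * F.form (T l) +
      (F.q e - ∑ l, MvPolynomial.C (F.al T e l) * F.q (T l)) := by
  have h1 : ∀ k, F.c e k = ∑ l, F.al T e l * F.c (T l) k := fun k => sum_al (c := F.c) hT e k
  have h2 : ∑ k, MvPolynomial.C (F.c e k) * F.P k =
      ∑ l, MvPolynomial.C (F.al T e l) * ∑ k, MvPolynomial.C (F.c (T l) k) * F.P k := by
    simp only [Finset.mul_sum]
    rw [Finset.sum_comm]
    refine Finset.sum_congr rfl fun k _ => ?_
    rw [h1 k, map_sum, Finset.sum_mul]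
    refine Finset.sum_congr rfl fun l _ => ?_
    rw [map_mul, mul_assoc]
  unfold Arr.form
  rw [h2]
  simp only [mul_add, Finset.sum_add_distrib]
  ring

end rel

section pole

variable {K : Type*} [Field K] [CharZero K] {d m : ℕ} {F : Arr K d m} {L : Type*} [Field L]
  (H : MvPolynomial (Fin (d + 1)) K →+* L) (v : Valuation L ℤᵐ⁰) {R : K}

omit [CharZero K] in
theorem RDel_al (hc : ∀ e k, IsIntegral ℤ (F.c e k)) (hR : IsIntegral ℤ R)
    {T : Fin (d + 1) → Fin (m + 1)} (hT : (F.mat T).det ≠ 0) (e : Fin (m + 1))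
    (l : Fin (d + 1)) : IsIntegral ℤ (R * F.Del * F.al T e l) := by
  rw [mul_assoc]
  exact hR.mul (Del_al hc hT e l)

omit [CharZero K] in
theorem RDel_inv (hc : ∀ e k, IsIntegral ℤ (F.c e k)) (hR : IsIntegral ℤ R)
    {T : Fin (d + 1) → Fin (m + 1)} (hT : (F.mat T).det ≠ 0) (k i : Fin (d + 1)) :
    IsIntegral ℤ (R * F.Del * (F.mat T)⁻¹ k i) := by
  rw [mul_assoc]
  exact hR.mul (Del_inv hc hT k i)

omit [CharZero K] in
theorem RDel_kap_inv (hc : ∀ e k, IsIntegral ℤ (F.c e k)) (hR : IsIntegral ℤ R)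
    {T : Fin (d + 1) → Fin (m + 1)} (hT : (F.mat T).det ≠ 0) (i : Fin (d + 1)) :
    IsIntegral ℤ (R * F.Del * (kap F.c T i)⁻¹) := by
  rw [mul_assoc]
  exact hR.mul (Del_kap_inv hc hT i)

omit [CharZero K] in
/-- one of the `P_k` is large -/
theorem exists_P (hP : ∀ k, (F.P k).IsWeightedHomogeneous F.a (F.M k)) (hR : F.Res R) {n : ℤ}
    (hRn : WithZero.exp (-n) ≤ v (H (MvPolynomial.C R))) {ω : ℤ} (hω : 0 ≤ ω)
    (hx : ∀ j, v (H (MvPolynomial.X j)) ≤ WithZero.exp (ω * F.a j)) {j0 : Fin (d + 1)}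
    (hx0 : v (H (MvPolynomial.X j0)) = WithZero.exp (ω * F.a j0)) :
    ∃ k, WithZero.exp (ω * F.M k - n) ≤ v (H (F.P k)) := by
  obtain ⟨N, b, hb, hbd, he⟩ := hR.hom hP j0
  by_contra hcon
  push Not at hcon
  have h1 : v (H (MvPolynomial.C R * MvPolynomial.X j0 ^ N)) <
      WithZero.exp (ω * (N * F.a j0) - n) := by
    rw [he, map_sum]
    refine Valuation.map_sum_lt v WithZero.exp_pos.ne' fun k _ => ?_
    rw [map_mul, map_mul]
    have h2 : v (H (b k)) ≤ WithZero.exp (ω * ((N : ℤ) * F.a j0 - F.M k)) := by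
      refine val_wt_le H v hω hx (hb k) fun i hi => ?_
      have h3 := hbd k i hi
      have h4 : ((Finsupp.weight F.a i : ℕ) : ℤ) + F.M k = N * F.a j0 := by exact_mod_cast h3
      omega
    have h3 : WithZero.exp (ω * (N * F.a j0) - n) =
        WithZero.exp (ω * ((N : ℤ) * F.a j0 - F.M k)) * WithZero.exp (ω * F.M k - n) := by
      rw [← WithZero.exp_add]
      congr 1
      ring
    rw [h3]
    exact mul_lt_mul_of_le_of_lt_of_nonneg_of_pos h2 (hcon k) zero_le WithZero.exp_pos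
  rw [map_mul, map_pow, map_mul, map_pow, hx0] at h1
  have h2 : WithZero.exp (ω * (N * F.a j0) - n) ≤ v (H (MvPolynomial.C R)) *
      WithZero.exp (ω * F.a j0) ^ N := by
    have h3 : WithZero.exp (ω * (N * F.a j0) - n) =
        WithZero.exp (-n) * WithZero.exp (ω * F.a j0) ^ N := by
      rw [← zpow_natCast, ← WithZero.exp_zsmul, ← WithZero.exp_add]
      congr 1
      rw [smul_eq_mul]
      ring
    rw [h3]
    exact mul_le_mul' hRn le_rfl
  exact absurd h1 (not_lt.2 h2)

theorem exists_T (hP : ∀ k, (F.P k).IsWeightedHomogeneous F.a (F.M k))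
    (hdeg : ∀ e k, F.c e k ≠ 0 → F.M k = F.n e)
    (hqdeg : ∀ e, ∀ i ∈ (F.q e).support, Finsupp.weight F.a i < F.n e)
    (hc : ∀ e k, IsIntegral ℤ (F.c e k)) (hq : ∀ e i, IsIntegral ℤ ((F.q e).coeff i))
    (hR : F.Res R) {n : ℤ} (hn : 0 ≤ n)
    (hD : v (H (MvPolynomial.C (R * F.Del))) = WithZero.exp (-n))
    {T : Fin (d + 1) → Fin (m + 1)} (hT : (F.mat T).det ≠ 0) {ω : ℤ}
    (hω : (2 * m + 4) * n < ω)
    (hx : ∀ j, v (H (MvPolynomial.X j)) ≤ WithZero.exp (ω * F.a j)) {j0 : Fin (d + 1)}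
    (hx0 : v (H (MvPolynomial.X j0)) = WithZero.exp (ω * F.a j0)) :
    ∃ i, WithZero.exp (ω * F.n (T i) - 2 * n) ≤ v (H (F.form (T i))) := by
  have hm0 : (0 : ℤ) ≤ m := by positivity
  have hω2 : 2 * n < ω := by nlinarith [mul_nonneg hm0 hn]
  have hω0 : 0 ≤ ω := by linarith
  have hRn : WithZero.exp (-n) ≤ v (H (MvPolynomial.C R)) := by
    rw [← hD, MvPolynomial.C_mul, map_mul, map_mul]
    have h1 : v (H (MvPolynomial.C F.Del)) ≤ 1 :=
      val_le_one_of_integral v (map_isIntegral_int (H.comp MvPolynomial.C) (Del_int hc))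
    calc v (H (MvPolynomial.C R)) * v (H (MvPolynomial.C F.Del))
        ≤ v (H (MvPolynomial.C R)) * 1 := mul_le_mul' le_rfl h1
      _ = _ := mul_one _
  obtain ⟨k, hk⟩ := exists_P H v hP hR hRn hω0 hx hx0
  by_contra hcon
  push Not at hcon
  have h1 : v (H (F.P k)) < WithZero.exp (ω * F.M k - n) := by
    rw [P_eq F hT k, map_sum]
    refine Valuation.map_sum_lt v WithZero.exp_pos.ne' fun i _ => ?_
    rw [map_mul, map_mul]
    by_cases hi : (F.mat T)⁻¹ k i = 0
    · rw [hi, map_zero, map_zero, map_zero, zero_mul]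
      exact WithZero.exp_pos
    · have hMn := inv_deg hdeg hT hi
      have h2 : v (H (MvPolynomial.C ((F.mat T)⁻¹ k i))) ≤ WithZero.exp n :=
        val_le_exp (H.comp MvPolynomial.C) v hD (RDel_inv hc hR.1 hT k i)
      have h3 : v (H (F.form (T i) - F.q (T i))) < WithZero.exp (ω * F.M k - 2 * n) := by
        rw [map_sub]
        refine lt_of_le_of_lt (v.map_sub _ _) (max_lt ?_ ?_)
        · rw [hMn]
          exact hcon i
        · have h4 : v (H (F.q (T i))) ≤ WithZero.exp (ω * ((F.n (T i) : ℤ) - 1)) := by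
            refine val_wt_le H v hω0 hx (hq (T i)) fun l hl => ?_
            have h5 := hqdeg (T i) l hl
            omega
          refine lt_of_le_of_lt h4 ?_
          rw [WithZero.exp_lt_exp, hMn]
          linarith
      have h4 : WithZero.exp (ω * F.M k - n) =
          WithZero.exp n * WithZero.exp (ω * F.M k - 2 * n) := by
        rw [← WithZero.exp_add]
        congr 1
        ring
      rw [h4]
      exact mul_lt_mul_of_le_of_lt_of_nonneg_of_pos h2 h3 zero_le WithZero.exp_pos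
  exact absurd h1 (not_lt.2 hk)

/-- the block of a pole -/
theorem exists_block (hP : ∀ k, (F.P k).IsWeightedHomogeneous F.a (F.M k))
    (hdeg : ∀ e k, F.c e k ≠ 0 → F.M k = F.n e)
    (hqdeg : ∀ e, ∀ i ∈ (F.q e).support, Finsupp.weight F.a i < F.n e)
    (hc : ∀ e k, IsIntegral ℤ (F.c e k)) (hq : ∀ e i, IsIntegral ℤ ((F.q e).coeff i))
    (hR : F.Res R) {n : ℤ} (hn : 0 ≤ n)
    (hD : v (H (MvPolynomial.C (R * F.Del))) = WithZero.exp (-n))
    {T : Fin (d + 1) → Fin (m + 1)} (hT : (F.mat T).det ≠ 0) {ω : ℤ}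
    (hω : (2 * m + 4) * n < ω)
    (hx : ∀ j, v (H (MvPolynomial.X j)) ≤ WithZero.exp (ω * F.a j)) {j0 : Fin (d + 1)}
    (hx0 : v (H (MvPolynomial.X j0)) = WithZero.exp (ω * F.a j0)) :
    ∃ k0, v (H (F.form (hi F.c T k0)) -
      ∑ k ∈ Finset.univ.filter (fun k => hi F.c T k = hi F.c T k0),
        H (MvPolynomial.C (kap F.c T k)) * H (F.form (T k))) <
      v (H (MvPolynomial.C (kap F.c T k0)) * H (F.form (T k0))) := by
  classical
  have hm0 : (0 : ℤ) ≤ m := by positivity
  have hω0 : 0 ≤ ω := by nlinarith [mul_nonneg hm0 hn]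
  obtain ⟨i1, hi1⟩ := exists_T H v hP hdeg hqdeg hc hq hR hn hD hT hω hx hx0
  have hfil : (Finset.univ.filter fun k : Fin (d + 1) =>
      WithZero.exp (ω * F.n (T k) - n * (2 * (hi F.c T k : ℕ) + 2)) ≤
        v (H (F.form (T k)))).Nonempty := by
    refine ⟨i1, Finset.mem_filter.2 ⟨Finset.mem_univ _, le_trans ?_ hi1⟩⟩
    rw [WithZero.exp_le_exp]
    have h1 : (0 : ℤ) ≤ ((hi F.c T i1 : ℕ) : ℤ) := by positivity
    nlinarith [mul_nonneg hn h1]
  obtain ⟨k0, hk0, hmax⟩ := Finset.exists_max_image _ (fun k => hi F.c T k) hfil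
  have hk0v := (Finset.mem_filter.1 hk0).2
  refine ⟨k0, ?_⟩
  set h := hi F.c T k0 with hh
  set J : Finset (Fin (d + 1)) := Finset.univ.filter fun k => hi F.c T k = h with hJ
  have hkapdeg : F.n (T k0) = F.n h := by
    refine al_deg hdeg hT (e := h) (i := k0) ?_
    have h1 := kap_ne hT k0
    rw [kap_eq hT] at h1
    exact h1
  -- the lower bound
  have hkapv : WithZero.exp (-n) ≤ v (H (MvPolynomial.C (kap F.c T k0))) := by
    have h1 := val_le_exp (H.comp MvPolynomial.C) v hD (RDel_kap_inv hc hR.1 hT k0)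
    rw [map_inv₀, map_inv₀] at h1
    have h0 : 0 < v ((H.comp MvPolynomial.C) (kap F.c T k0)) := by
      rw [Valuation.pos_iff]
      exact (map_ne_zero _).2 (kap_ne hT k0)
    rw [WithZero.exp_neg]
    exact inv_le_of_inv_le₀ h0 h1
  have hbig : WithZero.exp (ω * F.n h - n * (2 * (h : ℕ) + 3)) ≤
      v (H (MvPolynomial.C (kap F.c T k0)) * H (F.form (T k0))) := by
    rw [map_mul]
    have h1 : WithZero.exp (ω * F.n h - n * (2 * (h : ℕ) + 3)) = WithZero.exp (-n) *
        WithZero.exp (ω * F.n (T k0) - n * (2 * (h : ℕ) + 2)) := by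
      rw [← WithZero.exp_add, hkapdeg]
      congr 1
      ring
    rw [h1]
    exact mul_le_mul' hkapv hk0v
  refine lt_of_lt_of_le ?_ hbig
  -- the remainder
  have e1 : H (F.form h) - ∑ k ∈ J, H (MvPolynomial.C (kap F.c T k)) * H (F.form (T k)) =
      ∑ k ∈ Jᶜ, H (MvPolynomial.C (F.al T h k)) * H (F.form (T k)) +
        (H (F.q h) - ∑ l, H (MvPolynomial.C (F.al T h l)) * H (F.q (T l))) := by
    have e2 : H (F.form h) = ∑ l, H (MvPolynomial.C (F.al T h l)) * H (F.form (T l)) +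
      (H (F.q h) - ∑ l, H (MvPolynomial.C (F.al T h l)) * H (F.q (T l))) := by
      conv_lhs => rw [form_eq F hT h]
      simp only [map_add, map_sub, map_sum, map_mul]
    have e3 : ∀ k ∈ J, H (MvPolynomial.C (kap F.c T k)) * H (F.form (T k)) =
        H (MvPolynomial.C (F.al T h k)) * H (F.form (T k)) := by
      intro k hk
      have h4 : kap F.c T k = F.al T (hi F.c T k) k := kap_eq hT k
      rw [h4, (Finset.mem_filter.1 hk).2]
    rw [e2, Finset.sum_congr rfl e3, ← Finset.sum_add_sum_compl J]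
    ring
  have hal : ∀ l, v (H (MvPolynomial.C (F.al T h l))) ≤ WithZero.exp n := fun l =>
    val_le_exp (H.comp MvPolynomial.C) v hD (RDel_al hc hR.1 hT h l)
  have hhm : ((h : ℕ) : ℤ) ≤ m := by exact_mod_cast Nat.lt_succ_iff.1 h.isLt
  have hqv : ∀ e, v (H (F.q e)) ≤ WithZero.exp (ω * ((F.n e : ℤ) - 1)) := by
    intro e
    refine val_wt_le H v hω0 hx (hq e) fun l hl => ?_
    have h5 := hqdeg e l hl
    omega
  have hωh : n * (2 * (h : ℕ) + 4) < ω := by nlinarith [mul_le_mul_of_nonneg_left hhm hn]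
  rw [e1]
  refine lt_of_le_of_lt (v.map_add _ _) (max_lt ?_ ?_)
  · refine Valuation.map_sum_lt v WithZero.exp_pos.ne' fun k hk => ?_
    rw [map_mul]
    by_cases hal0 : F.al T h k = 0
    · rw [hal0, map_zero, map_zero, map_zero, zero_mul]
      exact WithZero.exp_pos
    · have h1 : h ≤ hi F.c T k := le_hi_of_al hT hal0
      have h2 : hi F.c T k ≠ h := fun h' =>
        (Finset.mem_compl.1 hk) (Finset.mem_filter.2 ⟨Finset.mem_univ _, h'⟩)
      have hlt : h < hi F.c T k := lt_of_le_of_ne h1 h2.symm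
      have h3 : v (H (F.form (T k))) <
          WithZero.exp (ω * F.n (T k) - n * (2 * (hi F.c T k : ℕ) + 2)) := by
        by_contra h'
        exact absurd (hmax k (Finset.mem_filter.2 ⟨Finset.mem_univ _, not_lt.1 h'⟩))
          (not_le.2 hlt)
      have h4 : F.n (T k) = F.n h := al_deg hdeg hT hal0
      have h5 : WithZero.exp n * WithZero.exp (ω * F.n (T k) -
          n * (2 * (hi F.c T k : ℕ) + 2)) ≤ WithZero.exp (ω * F.n h - n * (2 * (h : ℕ) + 3)) := by
        rw [← WithZero.exp_add, WithZero.exp_le_exp, h4]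
        have h6 : ((h : ℕ) : ℤ) + 1 ≤ (hi F.c T k : ℕ) := by
          exact_mod_cast Fin.lt_def.1 hlt
        nlinarith [mul_le_mul_of_nonneg_left h6 hn]
      exact (mul_lt_mul_of_le_of_lt_of_nonneg_of_pos (hal k) h3 zero_le
        WithZero.exp_pos).trans_le h5
  · have h7 : WithZero.exp (n + ω * ((F.n h : ℤ) - 1)) <
        WithZero.exp (ω * F.n h - n * (2 * (h : ℕ) + 3)) := by
      rw [WithZero.exp_lt_exp]
      nlinarith
    refine lt_of_le_of_lt (v.map_sub _ _) (max_lt ?_ ?_)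
    · refine lt_of_le_of_lt ((hqv h).trans ?_) h7
      rw [WithZero.exp_le_exp]
      linarith
    · refine lt_of_le_of_lt (Valuation.map_sum_le v fun l _ => ?_) h7
      rw [map_mul]
      by_cases hal0 : F.al T h l = 0
      · rw [hal0, map_zero, map_zero, map_zero, zero_mul]
        exact zero_le
      · rw [WithZero.exp_add, ← al_deg hdeg hT hal0]
        exact mul_le_mul' (hal l) (hqv (T l))

end pole

end Pool.Agent.V7H64.BR
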