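import Pool.Agent.V7H64.BR.Pole
set_option autoImplicit false

/-!
Points where the coordinates are bounded, and the dichotomy.
-/

namespace Pool.Agent.V7H64.BR

open scoped WithZero

open Pool.Agent.TH826.MK

open Pool.Agent.TH826.GA (cm al al_T)

open Pool.Agent.TH577.UA (hi kap hi_spec le_hi_of_al kap_eq kap_ne sum_al)

open Pool.Agent.N65.TU (Del Del_ne Del_int Del_inv Del_al Del_kap_inv Del_div det_int val_le_exp
  exists_n all_one mem_unitPart_of_block')

section small

variable {K : Type*} [Field K] {d m : ℕ} {F : Arr K d m} {L : Type*} [Field L]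
  (H : MvPolynomial (Fin (d + 1)) K →+* L) (v : Valuation L ℤᵐ⁰) {R : K}

theorem exp_pow (t : ℤ) (n : ℕ) : (WithZero.exp t : ℤᵐ⁰) ^ n = WithZero.exp (t * n) := by
  rw [mul_comm, ← smul_eq_mul, WithZero.exp_zsmul, zpow_natCast]

theorem val_form_le (hP : ∀ k, (F.P k).IsWeightedHomogeneous F.a (F.M k))
    (hdeg : ∀ e k, F.c e k ≠ 0 → F.M k = F.n e)
    (hqdeg : ∀ e, ∀ i ∈ (F.q e).support, Finsupp.weight F.a i < F.n e)
    (hPi : ∀ k i, IsIntegral ℤ ((F.P k).coeff i))
    (hc : ∀ e k, IsIntegral ℤ (F.c e k)) (hq : ∀ e i, IsIntegral ℤ ((F.q e).coeff i))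
    {τ : ℤ} (hτ : 0 ≤ τ) (hx : ∀ j, v (H (MvPolynomial.X j)) ≤ WithZero.exp (τ * F.a j))
    (e : Fin (m + 1)) : v (H (F.form e)) ≤ WithZero.exp (τ * F.n e) := by
  unfold Arr.form
  rw [map_add, map_sum]
  refine (v.map_add _ _).trans (max_le (Valuation.map_sum_le v fun k _ => ?_) ?_)
  · rw [map_mul, map_mul]
    by_cases hck : F.c e k = 0
    · rw [hck, map_zero, map_zero, map_zero, zero_mul]
      exact zero_le
    · have h1 : v (H (MvPolynomial.C (F.c e k))) ≤ 1 :=
        val_le_one_of_integral v (map_isIntegral_int (H.comp MvPolynomial.C) (hc e k))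
      have h2 : v (H (F.P k)) ≤ WithZero.exp (τ * F.M k) := by
        refine val_wt_le H v hτ hx (hPi k) fun i hi => ?_
        rw [hP k (MvPolynomial.mem_support_iff.1 hi)]
      rw [← hdeg e k hck]
      calc _ ≤ 1 * WithZero.exp (τ * F.M k) := mul_le_mul' h1 h2
        _ = _ := one_mul _
  · refine (val_wt_le H v hτ hx (hq e) (W := F.n e) fun i hi => ?_)
    exact_mod_cast (hqdeg e i hi).le

theorem val_Phi_le (hP : ∀ k, (F.P k).IsWeightedHomogeneous F.a (F.M k))
    (hdeg : ∀ e k, F.c e k ≠ 0 → F.M k = F.n e)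
    (hqdeg : ∀ e, ∀ i ∈ (F.q e).support, Finsupp.weight F.a i < F.n e)
    (hPi : ∀ k i, IsIntegral ℤ ((F.P k).coeff i))
    (hc : ∀ e k, IsIntegral ℤ (F.c e k)) (hq : ∀ e i, IsIntegral ℤ ((F.q e).coeff i))
    (hg : ∀ i, IsIntegral ℤ (F.g.coeff i)) {n : ℤ} (hn : 0 ≤ n)
    (hD : v (H (MvPolynomial.C (R * F.Del))) = WithZero.exp (-n))
    (hx : ∀ j, v (H (MvPolynomial.X j)) ≤ WithZero.exp ((2 * m + 4) * n * F.a j))
    {mu lam : K} (hmu : IsIntegral ℤ mu) (hlam : lam = mu * (R * F.Del) ^ F.Bex) :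
    v (H (F.Phi lam)) ≤ WithZero.exp (-n) := by
  have hm0 : (0 : ℤ) ≤ m := by positivity
  set τ : ℤ := (2 * m + 4) * n with hτ
  have hτ0 : 0 ≤ τ := by
    rw [hτ]
    positivity
  have h1 : ∀ e, v (H (F.form e)) ≤ WithZero.exp (τ * F.n e) :=
    val_form_le H v hP hdeg hqdeg hPi hc hq hτ0 hx
  have h2 : v (H F.g) ≤ WithZero.exp (τ * (F.g.weightedTotalDegree F.a : ℕ)) := by
    refine val_wt_le H v hτ0 hx hg fun i hi => ?_
    exact_mod_cast MvPolynomial.le_weightedTotalDegree F.a hi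
  have h3 : v (H (MvPolynomial.C mu)) ≤ 1 :=
    val_le_one_of_integral v (map_isIntegral_int (H.comp MvPolynomial.C) hmu)
  have h4 : v (H (MvPolynomial.C lam)) ≤ WithZero.exp (-n * F.Bex) := by
    rw [hlam, MvPolynomial.C_mul, MvPolynomial.C_pow, map_mul, map_mul, map_pow, map_pow, hD,
      exp_pow]
    calc _ ≤ 1 * WithZero.exp (-n * F.Bex) := mul_le_mul' h3 le_rfl
      _ = _ := one_mul _
  have h5 : ∏ e, v (H (F.form e)) ^ (F.w e + 1) ≤
      WithZero.exp (τ * ∑ e, (((F.w e + 1) * F.n e : ℕ) : ℤ)) := by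
    rw [Finset.mul_sum]
    have h7 : ∀ t : Finset (Fin (m + 1)), ∏ e ∈ t, v (H (F.form e)) ^ (F.w e + 1) ≤
        WithZero.exp (∑ e ∈ t, τ * (((F.w e + 1) * F.n e : ℕ) : ℤ)) := by
      intro t
      induction t using Finset.induction_on with
      | empty => simp
      | insert j t hj ih =>
        rw [Finset.prod_insert hj, Finset.sum_insert hj, WithZero.exp_add]
        refine mul_le_mul' ?_ ih
        have h8 : τ * (((F.w j + 1) * F.n j : ℕ) : ℤ) = τ * F.n j * ((F.w j + 1 : ℕ) : ℤ) := by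
          push_cast
          ring
        rw [h8, ← exp_pow]
        exact pow_le_pow_left' (h1 j) _
    exact h7 Finset.univ
  unfold Arr.Phi
  simp only [map_mul, map_prod, map_pow]
  calc v (H (MvPolynomial.C lam)) * (v (H F.g) * ∏ e, v (H (F.form e)) ^ (F.w e + 1))
      ≤ WithZero.exp (-n * F.Bex) * (WithZero.exp (τ * (F.g.weightedTotalDegree F.a : ℕ)) *
        WithZero.exp (τ * ∑ e, (((F.w e + 1) * F.n e : ℕ) : ℤ))) :=
        mul_le_mul' h4 (mul_le_mul' h2 h5)
    _ = WithZero.exp (-n) := by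
      rw [← WithZero.exp_add, ← WithZero.exp_add]
      congr 1
      rw [hτ]
      unfold Arr.Bex
      push_cast
      ring

end small

section dich

variable {K : Type*} [Field K] [CharZero K] {d m : ℕ} {F : Arr K d m} {L : Type*} [Field L]
  (H : MvPolynomial (Fin (d + 1)) K →+* L) (v : Valuation L ℤᵐ⁰) {R : K}

/-- Either there is a block of a pole, or `Φ` is bounded and all the `F_e` are units if `Φ` is a
unit. -/
theorem pole_or_small {σ : K →+* ℂ} (hF : F.Admissible σ) (hR : F.Res R) {mu lam : K}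
    (hmu : IsIntegral ℤ mu) (hlam : lam = mu * (R * F.Del) ^ F.Bex)
    {T : Fin (d + 1) → Fin (m + 1)} (hT : (F.mat T).det ≠ 0) :
    (∃ k0, v (H (F.form (hi F.c T k0)) -
      ∑ k ∈ Finset.univ.filter (fun k => hi F.c T k = hi F.c T k0),
        H (MvPolynomial.C (kap F.c T k)) * H (F.form (T k))) <
      v (H (MvPolynomial.C (kap F.c T k0)) * H (F.form (T k0)))) ∨
    (v (H (F.Phi lam)) ≤ 1 ∧ (v (H (F.Phi lam)) = 1 → (∀ e, v (H (F.form e)) = 1) ∧
      ∀ k, v (H (MvPolynomial.C (kap F.c T k))) = 1)) := by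
  classical
  set A : ℕ := ∏ l, F.a l with hA
  have hA0 : A ≠ 0 := Finset.prod_ne_zero_iff.2 fun l _ => (hF.a_pos l).ne'
  have hRD0 : R * F.Del ≠ 0 := mul_ne_zero hR.2.1 Del_ne
  have hRDi : IsIntegral ℤ (R * F.Del) := hR.1.mul (Del_int hF.c_int)
  obtain ⟨n, hn, hD⟩ := exists_n (H.comp MvPolynomial.C) (vpow v hA0) hRD0 hRDi
  have hD' : (vpow v hA0) (H (MvPolynomial.C (R * F.Del))) = WithZero.exp (-n) := hD
  have hle1 : ∀ {x : ℤᵐ⁰}, x ^ A ≤ 1 → x ≤ 1 := by
    intro x hx
    by_contra hcon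
    exact absurd hx (not_le.2 (one_lt_pow₀ (not_le.1 hcon) hA0))
  rcases exists_scale v (a := F.a) (fun j => H (MvPolynomial.X j)) (τ := (2 * m + 4) * n) with
    hsm | ⟨ω, hω, hx, j0, hx0⟩
  · right
    have hPhi := val_Phi_le H (vpow v hA0) hF.P_hom hF.c_deg hF.q_deg hF.P_int hF.c_int hF.q_int
      hF.g_int hn hD' hsm hmu hlam
    rw [vpow_apply] at hPhi
    refine ⟨hle1 (hPhi.trans ?_), fun h1 => ?_⟩
    · rw [← WithZero.exp_zero, WithZero.exp_le_exp]
      omega
    · rw [h1, one_pow, ← WithZero.exp_zero, WithZero.exp_le_exp] at hPhi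
      have hn0 : n = 0 := by omega
      subst hn0
      have hx1 : ∀ j, v (H (MvPolynomial.X j)) ≤ WithZero.exp ((0 : ℤ) * F.a j) := by
        intro j
        rw [zero_mul, WithZero.exp_zero]
        refine hle1 ?_
        have h2 := hsm j
        rwa [mul_zero, zero_mul, WithZero.exp_zero] at h2
      have hform : ∀ e, v (H (F.form e)) ≤ 1 := by
        intro e
        have h2 := val_form_le H v hF.P_hom hF.c_deg hF.q_deg hF.P_int hF.c_int hF.q_int le_rfl
          hx1 e
        rwa [zero_mul, WithZero.exp_zero] at h2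
      have hgv : v (H F.g) ≤ 1 := by
        have h2 := val_wt_le H v le_rfl hx1 hF.g_int (W := (F.g.weightedTotalDegree F.a : ℕ))
          fun i hi => by exact_mod_cast MvPolynomial.le_weightedTotalDegree F.a hi
        rwa [zero_mul, WithZero.exp_zero] at h2
      have hlv : v (H (MvPolynomial.C lam)) ≤ 1 := by
        refine val_le_one_of_integral v (map_isIntegral_int (H.comp MvPolynomial.C) ?_)
        rw [hlam]
        exact hmu.mul (hRDi.pow _)
      have hprod : v (H (MvPolynomial.C lam)) * (v (H F.g) *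
          ∏ e, v (H (F.form e)) ^ (F.w e + 1)) = 1 := by
        rw [← h1]
        unfold Arr.Phi
        simp only [map_mul, map_prod, map_pow]
      refine ⟨all_one v (fun e => H (F.form e)) F.w hlv hgv hform hprod, fun k => ?_⟩
      have hD1 : v (H (MvPolynomial.C (R * F.Del))) = WithZero.exp (-0) := by
        rw [neg_zero, WithZero.exp_zero]
        have h2 : v (H (MvPolynomial.C (R * F.Del))) ^ A = 1 := by
          have h3 := hD'
          rwa [vpow_apply, neg_zero, WithZero.exp_zero] at h3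
        exact (pow_eq_one_iff_of_nonneg zero_le hA0).1 h2
      have h3 : v (H (MvPolynomial.C (kap F.c T k))) ≤ 1 := by
        have h4 := val_le_exp (H.comp MvPolynomial.C) v hD1 (x := kap F.c T k) (by
          rw [mul_assoc]
          refine hR.1.mul ?_
          unfold kap
          rw [div_eq_mul_inv, mul_left_comm]
          exact (det_int hF.c_int _).mul (Del_div hF.c_int hT))
        rwa [WithZero.exp_zero] at h4
      have h5 := val_le_exp (H.comp MvPolynomial.C) v hD1 (RDel_kap_inv hF.c_int hR.1 hT k)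
      rw [WithZero.exp_zero, map_inv₀, map_inv₀] at h5
      have h0 : 0 < v ((H.comp MvPolynomial.C) (kap F.c T k)) := by
        rw [Valuation.pos_iff]
        exact (map_ne_zero _).2 (kap_ne hT k)
      exact le_antisymm h3 ((inv_le_one₀ h0).1 h5)
  · left
    obtain ⟨k0, hk0⟩ := exists_block H (vpow v hA0) hF.P_hom hF.c_deg hF.q_deg hF.c_int hF.q_int
      hR hn hD' hT hω hx hx0
    refine ⟨k0, ?_⟩
    rw [vpow_apply, vpow_apply] at hk0
    exact lt_of_pow_lt_pow_left' A hk0

end dich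

end Pool.Agent.V7H64.BR
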