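import Pool.Agent.V7H64.BR.Pts
set_option autoImplicit false

/-!
Tori in the complex points of the hypersurfaces `λ g ∏_e F_e ^ (w_e + 1) = 1` near the vertices, and
the regulators of symbols on them.
-/

namespace Pool.Agent.V7H64.BR

open Filter Topology

open Pool.Agent.TH826.MK

open Pool.Agent.TH826.SX (pairing_close det_ne_zero_near)

open Pool.Agent.TH577.UA (yrow mrow mmon mmon_zero_eq det_yrow det_ne_zero_of_tri stp)

section Ev

variable {K : Type*} [Field K] {d n : ℕ} {σ : K →+* ℂ} {Φ : MvPolynomial (Fin (d + 1)) K}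

/-- evaluation of the regular functions at a complex point -/
noncomputable def evH {x : Fin (d + 1) → ℂ} (h : MvPolynomial.eval₂ σ x Φ = 1) : HRing Φ →+* ℂ :=
  Ideal.Quotient.lift (Ideal.span {Φ - 1}) (MvPolynomial.eval₂Hom σ x) (by
    intro p hp
    have hle : Ideal.span {Φ - 1} ≤ RingHom.ker (MvPolynomial.eval₂Hom σ x) := by
      rw [Ideal.span_le]
      rintro q rfl
      show MvPolynomial.eval₂ σ x (Φ - 1) = 0
      rw [MvPolynomial.eval₂_sub, MvPolynomial.eval₂_one, h, sub_self]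
    exact hle hp)

theorem evH_hx {x : Fin (d + 1) → ℂ} (h : MvPolynomial.eval₂ σ x Φ = 1)
    (p : MvPolynomial (Fin (d + 1)) K) : evH h (hx Φ p) = MvPolynomial.eval₂ σ x p :=
  Ideal.Quotient.lift_mk _ _ _

theorem evH_hcst {x : Fin (d + 1) → ℂ} (h : MvPolynomial.eval₂ σ x Φ = 1) (y : K) :
    evH h (hcst Φ y) = σ y := by
  show evH h (hx Φ (MvPolynomial.C y)) = _
  rw [evH_hx, MvPolynomial.eval₂_C]

theorem evH_congr {x y : Fin (d + 1) → ℂ} (h : MvPolynomial.eval₂ σ x Φ = 1)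
    (h' : MvPolynomial.eval₂ σ y Φ = 1) (he : x = y) : evH h = evH h' := by
  subst he
  rfl

theorem contDiff_evH {x : (Fin n → ℝ) → (Fin (d + 1) → ℂ)} (hc : ContDiff ℝ 2 x)
    (h : ∀ θ, MvPolynomial.eval₂ σ (x θ) Φ = 1) (b : HRing Φ) :
    ContDiff ℝ 2 fun θ => evH (h θ) b := by
  obtain ⟨p, hp⟩ : ∃ p, hx Φ p = b := Ideal.Quotient.mk_surjective b
  have e : (fun θ => evH (h θ) b) = fun θ => MvPolynomial.eval₂ σ (x θ) p := by
    funext θ
    rw [← hp]
    exact evH_hx (h θ) p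
  rw [e]
  exact ((contDiff_poly σ p).restrict_scalars ℝ).comp hc

/-- a torus in the hypersurface -/
noncomputable def mkH (x : (Fin n → ℝ) → (Fin (d + 1) → ℂ)) (hc : ContDiff ℝ 2 x)
    (hp : ∀ θ i, x (θ + Pi.single i 1) = x θ)
    (h : ∀ θ, MvPolynomial.eval₂ σ (x θ) Φ = 1) : Torus (HRing Φ) n where
  e θ := evH (h θ)
  smooth b := contDiff_evH hc h b
  periodic θ i := evH_congr _ _ (hp θ i)

end Ev

section main

variable {K : Type*} [Field K] {d m : ℕ} {F : Arr K d m} {σ : K →+* ℂ}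
  {μ : Fin (m + 1) → Fin (d + 1) → ℕ}

/-- the determinant of the differences of the exponents -/
noncomputable def ldet (μ : Fin (m + 1) → Fin (d + 1) → ℕ) (p q : Fin (d + 1) → Fin (m + 1)) : ℝ :=
  (Matrix.of fun l j => (μ (p l) j : ℝ) - μ (q l) j).det

theorem ldet_eq (r : ℕ) (N : Fin d → ℕ) (p q : Fin (d + 1) → Fin (m + 1)) :
    (Matrix.of fun l j => mrow r N (μ (p l)) j - mrow r N (μ (q l)) j).det =
      ldet μ p q * (Matrix.of (yrow r N)).det := by
  have h : (Matrix.of fun l j => mrow r N (μ (p l)) j - mrow r N (μ (q l)) j) =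
      (Matrix.of fun l j => (μ (p l) j : ℝ) - μ (q l) j) * Matrix.of (yrow r N) := by
    ext l j
    rw [Matrix.mul_apply]
    simp only [Matrix.of_apply]
    unfold mrow
    rw [← Finset.sum_sub_distrib]
    refine Finset.sum_congr rfl fun i _ => ?_
    ring
  rw [h, Matrix.det_mul]
  rfl

/-- the value of `Φ` -/
theorem eval_Phi (lam : K) (x : Fin (d + 1) → ℂ) : MvPolynomial.eval₂ σ x (F.Phi lam) =
    σ lam * (MvPolynomial.eval₂ σ x F.g *
      ∏ e, MvPolynomial.eval₂ σ x (F.form e) ^ (F.w e + 1)) := by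
  unfold Arr.Phi
  rw [MvPolynomial.eval₂_mul, MvPolynomial.eval₂_mul, MvPolynomial.eval₂_C,
    MvPolynomial.eval₂_prod]
  simp only [MvPolynomial.eval₂_pow]

theorem exists_torusH (ch : Chart F σ μ) (hμ : 0 < ∑ e, (F.w e + 1) * μ e 0)
    {I : Type*} [Fintype I] [Nonempty I] (κ : I → Fin (d + 1) → Kˣ)
    (p q : I → Fin (d + 1) → Fin (m + 1)) :
    ∃ D : ℝ, D ≠ 0 ∧ ∀ ε : ℝ, 0 < ε →
    ∃ Λ : ℝ, 1 < Λ ∧ ∀ lam : K, Λ ≤ ‖σ lam‖ → ∃ Γ : Torus (F.Hyp lam) d,
      (∀ θ x, Γ.e θ (hcst (F.Phi lam) x) = σ x) ∧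
      ∀ i, |Γ.reg (symb fun l => Units.map (hcst (F.Phi lam) : K →* F.Hyp lam) (κ i l) *
        (hdiv (F.form_dvd lam (p i l)) / hdiv (F.form_dvd lam (q i l)))) /
          (-Real.log ‖σ lam‖) - ldet μ (p i) (q i) * D| ≤ ε := by
  classical
  set N : Fin d → ℕ := fun k => ∑ e : (e : Fin (m + 1)) × Fin (F.w e + 1),
    μ e.1 k.succ with hN
  set r : ℕ := ∑ e, (F.w e + 1) * μ e 0 with hr
  have hmu0 : ∑ e : (e : Fin (m + 1)) × Fin (F.w e + 1), μ e.1 0 = r := by
    rw [Fintype.sum_sigma]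
    simp only [Finset.sum_const, Finset.card_univ, Fintype.card_fin, smul_eq_mul]
    rfl
  refine ⟨(2 * Real.pi) ^ d * (Matrix.of (yrow r N)).det, mul_ne_zero
    (pow_ne_zero _ (by have := Real.pi_pos; positivity)) (det_yrow hμ N), fun ε hε => ?_⟩
  choose δ hδ hclose using fun i : I =>
    pairing_close (Matrix.of fun l j => mrow r N (μ (p i l)) j - mrow r N (μ (q i l)) j) hε
  obtain ⟨i0, -, hi0⟩ := Finset.exists_min_image Finset.univ δ
    ⟨Classical.arbitrary I, Finset.mem_univ _⟩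
  set δ0 : ℝ := δ i0 / 5 with hδ0
  have hδ0pos : 0 < δ0 := by
    have := hδ i0
    rw [hδ0]
    linarith
  have hδle : ∀ i, 4 * δ0 < δ i := by
    intro i
    have h1 := hi0 i (Finset.mem_univ i)
    have h2 := hδ i0
    rw [hδ0]
    linarith
  obtain ⟨η0, hη0, hX⟩ := exists_points' (q := r) (N := N)
    (H := fun (e : Option ((e : Fin (m + 1)) × Fin (F.w e + 1))) y => Option.elim e
      (MvPolynomial.eval₂ σ (ch.x y) F.g)
        fun e => MvPolynomial.eval₂ σ (ch.x y) (F.form e.1))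
    (h := fun (e : Option ((e : Fin (m + 1)) × Fin (F.w e + 1))) y => Option.elim e
      (MvPolynomial.eval₂ σ (ch.x y) F.g) fun e => ch.h e.1 y)
    (μ := fun e => Option.elim e 0 fun e => μ e.1)
    (P := fun y => ContDiffAt ℂ 2 ch.x y)
    (by
      filter_upwards [ch.fac] with y hy e
      cases e with
      | none =>
        show _ = mmon 0 y * _
        rw [mmon_zero_eq (μ := 0) fun j => rfl, one_mul]
        rfl
      | some e => exact hy e.1)
    (fun e => by
      cases e with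
      | none => exact (contDiff_poly σ F.g).contDiffAt.comp (0 : (Fin d → ℂ) × ℂ) ch.x_smooth
      | some e => exact ch.h_smooth e.1)
    (fun e => by
      cases e with
      | none => exact ch.g_ne
      | some e => exact ch.h_ne e.1)
    (ch.x_smooth.eventually (by norm_num))
    (by
      rw [Fintype.sum_option]
      simp only [Option.elim]
      rw [hmu0]
      exact zero_add _) hμ
    (fun k => by
      rw [Fintype.sum_option]
      simp only [Option.elim]
      rw [hN]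
      exact zero_add _) hδ0pos
  set G : ℝ := ∑ i : I, ∑ l, |Real.log ‖σ (κ i l)‖| with hG
  have hG0 : 0 ≤ G := Finset.sum_nonneg fun S _ => Finset.sum_nonneg fun i _ => abs_nonneg _
  have hGS : ∀ i l, |Real.log ‖σ (κ i l)‖| ≤ G := fun i l =>
    (Finset.single_le_sum (f := fun l => |Real.log ‖σ (κ i l)‖|)
      (fun i _ => abs_nonneg _) (Finset.mem_univ l)).trans
    (Finset.single_le_sum (f := fun i => ∑ l, |Real.log ‖σ (κ i l)‖|)
      (fun S _ => Finset.sum_nonneg fun i _ => abs_nonneg _) (Finset.mem_univ i))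
  have hinvpos : 0 < 1 / η0 := by positivity
  refine ⟨1 / η0 + 2 + Real.exp (G / δ0), by
    have := Real.exp_pos (G / δ0)
    linarith, fun lam hlam => ?_⟩
  have hexp := Real.exp_pos (G / δ0)
  have hln : 0 < ‖σ lam‖ := by linarith
  have hl0 : σ lam ≠ 0 := norm_pos_iff.1 hln
  have hη : ‖(σ lam)⁻¹‖ < η0 := by
    rw [norm_inv, inv_lt_comm₀ hln hη0, ← one_div]
    linarith
  obtain ⟨hlog, U, hUc, hUp, hUP, hUe, hUg, hUest⟩ := hX _ (inv_ne_zero hl0) hη
  have hlogeq : Real.log ‖(σ lam)⁻¹‖ = -Real.log ‖σ lam‖ := by rw [norm_inv, Real.log_inv]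
  rw [hlogeq] at hlog hUest
  have hbig : G ≤ δ0 * |(-Real.log ‖σ lam‖)| := by
    have h1 : G / δ0 ≤ Real.log ‖σ lam‖ := by
      rw [Real.le_log_iff_exp_le hln]
      linarith
    rw [div_le_iff₀ hδ0pos] at h1
    rw [abs_of_neg hlog, neg_neg]
    linarith
  set s : ℝ := -Real.log ‖σ lam‖ with hs
  have hs0 : s ≠ 0 := hlog.ne
  have hspos : 0 < |s| := abs_pos.2 hs0
  have hgs : ∀ i l, |Real.log ‖σ (κ i l)‖ / s| ≤ δ0 := by
    intro i l
    rw [abs_div, div_le_iff₀ hspos]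
    exact (hGS i l).trans hbig
  set X : (Fin d → ℝ) → (Fin (d + 1) → ℂ) := fun θ => ch.x (U θ) with hXdef
  have hXc : ContDiff ℝ 2 X := by
    rw [contDiff_iff_contDiffAt]
    intro θ
    exact ((hUP θ).restrict_scalars ℝ).comp θ hUc.contDiffAt
  have hXp : ∀ θ i, X (θ + Pi.single i 1) = X θ := fun θ i => by
    simp only [hXdef, hUp]
  have hPt : ∀ θ, MvPolynomial.eval₂ σ (X θ) (F.Phi lam) = 1 := fun θ => by
    have h1 := hUe θ
    rw [Fintype.prod_option] at h1
    have h3 : ∏ e : (e : Fin (m + 1)) × Fin (F.w e + 1), MvPolynomial.eval₂ σ (X θ) (F.form e.1) =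
        ∏ e, MvPolynomial.eval₂ σ (X θ) (F.form e) ^ (F.w e + 1) := by
      rw [Fintype.prod_sigma]
      simp only [Finset.prod_const, Finset.card_univ, Fintype.card_fin]
    have h2 : MvPolynomial.eval₂ σ (X θ) F.g *
        ∏ e, MvPolynomial.eval₂ σ (X θ) (F.form e) ^ (F.w e + 1) = (σ lam)⁻¹ := by
      rw [← h3]
      exact h1
    rw [eval_Phi, h2]
    exact mul_inv_cancel₀ hl0
  have hgoodL : ∀ e, Good fun θ => MvPolynomial.eval₂ σ (X θ) (F.form e) := fun e =>
    hUg (some ⟨e, 0⟩)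
  have hest : ∀ e θ, |Real.log ‖MvPolynomial.eval₂ σ (X θ) (F.form e)‖ / s -
      mrow r N (μ e) 0| ≤ δ0 ∧
      ∀ j, ‖lw (fun θ => MvPolynomial.eval₂ σ (X θ) (F.form e)) j θ - 2 * Real.pi * Complex.I *
        mrow r N (μ e) j.succ‖ ≤ δ0 := fun e θ => hUest (some ⟨e, 0⟩) θ
  refine ⟨mkH X hXc hXp hPt, fun θ x => evH_hcst (hPt θ) x, fun i => ?_⟩
  have hfin : ldet μ (p i) (q i) * ((2 * Real.pi) ^ d * (Matrix.of (yrow r N)).det) =
      (2 * Real.pi) ^ d * (Matrix.of fun l j => mrow r N (μ (p i l)) j -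
        mrow r N (μ (q i l)) j).det := by
    rw [ldet_eq]
    ring
  rw [Torus.reg_symb, hfin]
  set Γ := mkH X hXc hXp hPt with hΓ
  set ent : Fin (d + 1) → (F.Hyp lam)ˣ := fun l =>
    Units.map (hcst (F.Phi lam) : K →* F.Hyp lam) (κ i l) *
        (hdiv (F.form_dvd lam (p i l)) / hdiv (F.form_dvd lam (q i l))) with hent
  have hκc : ∀ l, σ (κ i l) ≠ 0 := fun l => (map_ne_zero σ).2 (κ i l).ne_zero
  have hau : ∀ e, Γ.fn (hdiv (F.form_dvd lam e) : F.Hyp lam) =
      fun θ => MvPolynomial.eval₂ σ (X θ) (F.form e) := fun e =>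
    funext fun θ => evH_hx (hPt θ) (F.form e)
  have hgoodE : ∀ l, Good (Γ.fn (ent l : F.Hyp lam)) := fun l => Γ.good _
  have hmul : ∀ l : Fin (d + 1), (fun θ => Γ.fn (ent l : F.Hyp lam) θ *
      MvPolynomial.eval₂ σ (X θ) (F.form (q i l))) =
      fun θ => σ (κ i l) * MvPolynomial.eval₂ σ (X θ) (F.form (p i l)) := by
    intro l
    funext θ
    have h1 := congrFun (hau (q i l)) θ
    have h2 := congrFun (hau (p i l)) θ
    have h3 : Γ.fn (hcst (F.Phi lam) (κ i l : K)) θ = σ (κ i l) := evH_hcst (hPt θ) _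
    rw [← h1, ← h2, ← h3]
    unfold Torus.fn
    rw [← map_mul, ← map_mul]
    congr 1
    rw [hent]
    simp only
    rw [← Units.val_mul, mul_assoc, div_mul_cancel]
    rfl
  refine hclose i _ _ hs0 hgoodE (fun l θ => ?_) (fun l j θ => ?_)
  · change |Real.log ‖Γ.fn (ent l : F.Hyp lam) θ‖ / s -
      (mrow r N (μ (p i l)) 0 - mrow r N (μ (q i l)) 0)| < δ i
    have h1 := (hest (p i l) θ).1
    have h2 := (hest (q i l) θ).1
    have h0 := hgs i l
    have h3 : Real.log ‖Γ.fn (ent l : F.Hyp lam) θ *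
        MvPolynomial.eval₂ σ (X θ) (F.form (q i l))‖ =
        Real.log ‖σ (κ i l) * MvPolynomial.eval₂ σ (X θ) (F.form (p i l))‖ :=
      congrArg (fun z : ℂ => Real.log ‖z‖) (congrFun (hmul l) θ)
    rw [norm_mul, norm_mul, Real.log_mul (norm_ne_zero_iff.2 ((hgoodE l).ne_zero θ))
      (norm_ne_zero_iff.2 ((hgoodL _).ne_zero θ)), Real.log_mul (norm_ne_zero_iff.2 (hκc l))
      (norm_ne_zero_iff.2 ((hgoodL _).ne_zero θ))] at h3
    have h4 : Real.log ‖Γ.fn (ent l : F.Hyp lam) θ‖ =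
        Real.log ‖σ (κ i l)‖ + Real.log ‖MvPolynomial.eval₂ σ (X θ) (F.form (p i l))‖ -
        Real.log ‖MvPolynomial.eval₂ σ (X θ) (F.form (q i l))‖ := by
      linarith
    rw [h4, sub_div, add_div]
    refine lt_of_le_of_lt ?_ (hδle i)
    have h5 := abs_le.1 h1
    have h6 := abs_le.1 h2
    have h7 := abs_le.1 h0
    rw [abs_le]
    constructor <;> linarith [h5.1, h5.2, h6.1, h6.2, h7.1, h7.2]
  · change ‖lw (Γ.fn (ent l : F.Hyp lam)) j θ -
      2 * Real.pi * Complex.I *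
        ((mrow r N (μ (p i l)) j.succ - mrow r N (μ (q i l)) j.succ : ℝ) : ℂ)‖ < δ i
    have h1 := (hest (p i l) θ).2 j
    have h2 := (hest (q i l) θ).2 j
    have h3 := lw_mul (hgoodE l) (hgoodL (q i l)) j θ
    rw [hmul l] at h3
    have h5 := lw_mul (good_const (d := d) (hκc l)) (hgoodL (p i l)) j θ
    rw [lw_const, zero_add] at h5
    have h4 : lw (Γ.fn (ent l : F.Hyp lam)) j θ =
        lw (fun θ => MvPolynomial.eval₂ σ (X θ) (F.form (p i l))) j θ -
        lw (fun θ => MvPolynomial.eval₂ σ (X θ) (F.form (q i l))) j θ := by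
      rw [eq_sub_iff_add_eq, ← h5]
      exact h3.symm
    rw [h4]
    refine lt_of_le_of_lt ?_ (hδle i)
    have e2 : lw (fun θ => MvPolynomial.eval₂ σ (X θ) (F.form (p i l))) j θ -
        lw (fun θ => MvPolynomial.eval₂ σ (X θ) (F.form (q i l))) j θ - 2 * Real.pi * Complex.I *
          ((mrow r N (μ (p i l)) j.succ - mrow r N (μ (q i l)) j.succ : ℝ) : ℂ) =
        (lw (fun θ => MvPolynomial.eval₂ σ (X θ) (F.form (p i l))) j θ -
          2 * Real.pi * Complex.I * mrow r N (μ (p i l)) j.succ) -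
        (lw (fun θ => MvPolynomial.eval₂ σ (X θ) (F.form (q i l))) j θ -
          2 * Real.pi * Complex.I * mrow r N (μ (q i l)) j.succ) := by
      push_cast
      ring
    rw [e2]
    refine (norm_sub_le _ _).trans ?_
    linarith

/-- The tori and the regulators for large `λ`. -/
theorem exists_indep (hF : F.Admissible σ) :
    ∃ C : ℝ, 1 ≤ C ∧ ∀ lam : K, C ≤ ‖σ lam‖ → F.Indep lam σ := by
  classical
  have hch : ∀ T : F.Ix, Nonempty (Chart F σ (mu F T.1)) := by
    intro T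
    obtain ⟨p, hp⟩ := hF.vertex T.1 T.2
    exact exists_chart hF.form_ne hp
  have hpos : ∀ T : F.Ix, 0 < ∑ e, (F.w e + 1) * mu F T.1 e 0 := by
    intro T
    refine lt_of_lt_of_le (b := (F.w (T.1 0) + 1) * mu F T.1 (T.1 0) 0) ?_
      (Finset.single_le_sum (f := fun e => (F.w e + 1) * mu F T.1 e 0)
        (fun e _ => Nat.zero_le _) (Finset.mem_univ (T.1 0)))
    rw [mu_T T.2.2.1]
    unfold stp
    rw [if_pos le_rfl]
    omega
  have hex := fun T : F.Ix => by
    haveI : Nonempty F.Ix := ⟨T⟩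
    exact exists_torusH (hch T).some (hpos T)
      (fun T' : F.Ix => F.kap T'.1) (fun T' => T'.1) (fun T' => F.hi T'.1)
  choose D hD0 hT using hex
  set M0 : Matrix F.Ix F.Ix ℝ := Matrix.of fun T T' =>
    D T * lead F T.1 T'.1 (F.hi T'.1) with hM0
  have hM : M0.det ≠ 0 := by
    have h1 : M0.det = (∏ T, D T) *
        (Matrix.of fun T T' : F.Ix => lead F T.1 T'.1 (F.hi T'.1)).det := by
      rw [← Matrix.det_mul_column]
      rfl
    rw [h1]
    refine mul_ne_zero (Finset.prod_ne_zero_iff.2 fun T _ => hD0 T) ?_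
    refine det_ne_zero_of_tri (fun T : F.Ix => ∑ l, (T.1 l : ℕ)) _ (fun T => ?_)
      (fun T T' h => ?_)
    · rw [Matrix.of_apply]
      exact lead_same T.2
    · rw [Matrix.of_apply] at h
      rcases lead_other T.2 T'.2 h with h1 | h1
      · exact Or.inl (Subtype.ext h1)
      · exact Or.inr h1
  obtain ⟨δ, hδ, hdet⟩ := det_ne_zero_near M0 hM
  choose Λ hΛ1 hΛ using fun T : F.Ix => hT T (δ / 2) (by linarith)
  set C : ℝ := ∑ T, |Λ T| + 2 with hC
  have hsum : 0 ≤ ∑ T, |Λ T| := Finset.sum_nonneg fun J _ => abs_nonneg _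
  have hΛC : ∀ T, Λ T ≤ C := by
    intro T
    have h1 := Finset.single_le_sum (f := fun T => |Λ T|) (fun T _ => abs_nonneg _)
      (Finset.mem_univ T)
    have h2 := le_abs_self (Λ T)
    have h3 : |Λ T| ≤ ∑ T, |Λ T| := h1
    linarith
  refine ⟨C, by linarith, fun lam hlam => ?_⟩
  choose Γ hΓ1 hΓ2 using fun T => hΛ T lam ((hΛC T).trans hlam)
  refine ⟨Γ, hΓ1, ?_⟩
  have hs : -Real.log ‖σ lam‖ ≠ 0 := by
    have : 0 < Real.log ‖σ lam‖ := Real.log_pos (by linarith)
    linarith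
  set s : ℝ := -Real.log ‖σ lam‖ with hsdef
  have h1 : (Matrix.of fun T T' : F.Ix => (Γ T).reg (F.sym lam T'.1) / s).det ≠ 0 := by
    refine hdet _ fun T T' => ?_
    rw [hM0, Matrix.of_apply, Matrix.of_apply, mul_comm]
    exact lt_of_le_of_lt (hΓ2 T T') (show δ / 2 < δ by linarith)
  have h2 : (Matrix.of fun T T' : F.Ix => (Γ T).reg (F.sym lam T'.1)) =
      s • (Matrix.of fun T T' : F.Ix => (Γ T).reg (F.sym lam T'.1) / s) := by
    ext T T'
    rw [Matrix.smul_apply, Matrix.of_apply, Matrix.of_apply, smul_eq_mul]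
    field_simp
  rw [h2, Matrix.det_smul]
  exact mul_ne_zero (pow_ne_zero _ hs) h1

end main

end Pool.Agent.V7H64.BR
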